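import Pool.Agent.Gsc.Def
import Pool.Agent.MP_a6a2ff_al.Count

/-!
# The algebra with nineteen point modules: points
-/

set_option linter.unusedSimpArgs false
set_option linter.unusedVariables false

universe u

namespace Pool.Agent.Gsc

variable {k : Type u} [Field k]

/-- the relations of the algebra with nineteen point modules (`i` is a square root of `-1`) -/
def r19 (i : k) : Fin 6 → Fin 4 → Fin 4 → k :=
  ![![![1, 0, 0, 0], ![0, 0, 0, 0], ![0, 0, -2, 0], ![0, 0, 0, 1]],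
    ![![-1 + i, 0, 1, 0], ![0, 0, 0, 0], ![1, 0, -1 - i, 0], ![0, 0, 0, 0]],
    ![![0, 0, 0, 0], ![0, 0, 0, 0], ![0, 0, -1 - i, 1], ![0, 0, 1, -1 + i]],
    ![![0, 0, 0, 1], ![0, 2, 0, 0], ![0, 0, 0, 0], ![-1, 0, 0, 0]],
    ![![0, 1, 0, 0], ![i, 0, 0, 0], ![0, 0, 0, 0], ![0, 0, 0, 0]],
    ![![0, 0, 0, 0], ![0, 0, 0, 1], ![0, 0, 0, 0], ![0, i, 0, 0]]]

/-- the equations of a pair of points -/
structure Eq19 (i : k) (a b : Fin 4 → k) : Prop where
  e0 : a 0 * b 0 + a 3 * b 3 = 2 * (a 2 * b 2)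
  e1 : a 0 * b 2 + a 2 * b 0 = (1 - i) * (a 0 * b 0) + (1 + i) * (a 2 * b 2)
  e2 : a 2 * b 3 + a 3 * b 2 = (1 - i) * (a 3 * b 3) + (1 + i) * (a 2 * b 2)
  e3 : a 0 * b 3 - a 3 * b 0 + 2 * (a 1 * b 1) = 0
  e4 : a 0 * b 1 + i * (a 1 * b 0) = 0
  e5 : a 1 * b 3 + i * (a 3 * b 1) = 0

/-- four points with second coordinate zero -/
def pS (i s : k) : Fin 4 → k := ![-s ^ 2, 0, (1 - i) * (1 - s ^ 2) / 2 + s, 1]

/-- twelve points with second coordinate one -/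
noncomputable def pP (i p : k) : Fin 4 → k :=
  ![-i * p, 1, (1 + i) / 2 * (-i * (p ^ 2 + (p⁻¹) ^ 2) / 2 * (p⁻¹ + i * p) - p - i * p⁻¹), p⁻¹]

/-- the index set of the points -/
abbrev Idx19 (i : k) : Type u :=
  Fin 3 ⊕ ({s : k // s ^ 4 - 2 * i * s ^ 2 + 1 = 0} ⊕
    {p : k // (p ^ 4 + 1) * ((p ^ 4) ^ 2 - (2 + 4 * i) * p ^ 4 + 1) = 0})

/-- the points -/
noncomputable def pt19 (i : k) : Idx19 i → Fin 4 → k
  | Sum.inl j => (![![0, 1, 0, 0], ![0, 0, 1, 0], ![1, 0, 1, 1]] : Fin 3 → Fin 4 → k) j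
  | Sum.inr (Sum.inl s) => pS i s.1
  | Sum.inr (Sum.inr p) => pP i p.1

/-- the automorphism on the points -/
def sig19 (i : k) (hi : i * i = -1) : Idx19 i → Idx19 i
  | Sum.inl j => Sum.inl ((![1, 0, 2] : Fin 3 → Fin 3) j)
  | Sum.inr (Sum.inl s) => Sum.inr (Sum.inl ⟨-s.1, by
      have := s.2
      linear_combination this⟩)
  | Sum.inr (Sum.inr p) => Sum.inr (Sum.inr ⟨i * p.1, by
      have h4 : (i * p.1) ^ 4 = p.1 ^ 4 := by linear_combination p.1 ^ 4 * (i ^ 2 - 1) * hi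
      rw [h4]
      exact p.2⟩)

/- MODULE na -/
lemma gam_r19_iff (i : k) (a b : Fin 4 → k) : Gam (r19 i) a b ↔ Eq19 i a b := by
  have h0 : ∀ l : Fin 6, (∑ s, ∑ t, r19 i l s t * (a s * b t)) =
      (![a 0 * b 0 + a 3 * b 3 - 2 * (a 2 * b 2),
        a 0 * b 2 + a 2 * b 0 - ((1 - i) * (a 0 * b 0) + (1 + i) * (a 2 * b 2)),
        a 2 * b 3 + a 3 * b 2 - ((1 - i) * (a 3 * b 3) + (1 + i) * (a 2 * b 2)),
        a 0 * b 3 - a 3 * b 0 + 2 * (a 1 * b 1),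
        a 0 * b 1 + i * (a 1 * b 0),
        a 1 * b 3 + i * (a 3 * b 1)] : Fin 6 → k) l := by
    intro l
    fin_cases l <;> simp [r19, Fin.sum_univ_succ] <;> ring
  constructor
  · intro h
    have h1 : ∀ l, _ := fun l => (h0 l).symm.trans (h l)
    refine ⟨?_, ?_, ?_, ?_, ?_, ?_⟩
    · exact sub_eq_zero.1 (by simpa using h1 0)
    · exact sub_eq_zero.1 (by simpa using h1 1)
    · exact sub_eq_zero.1 (by simpa using h1 2)
    · simpa using h1 3
    · simpa using h1 4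
    · simpa using h1 5
  · intro h l
    rw [h0 l]
    fin_cases l
    · simpa using sub_eq_zero.2 h.e0
    · simpa using sub_eq_zero.2 h.e1
    · simpa using sub_eq_zero.2 h.e2
    · simpa using h.e3
    · simpa using h.e4
    · simpa using h.e5

private lemma na_i {i : k} (hi : i * i = -1) : i ≠ 0 := by
  rintro rfl
  simp at hi

private lemma na_ne {a : Fin 4 → k} (ha : a ≠ 0) (h0 : a 0 = 0) (h1 : a 1 = 0) (h3 : a 3 = 0) :
    a 2 ≠ 0 := by
  intro h2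
  exact ha (funext fun j => by fin_cases j <;> assumption)

/-- the pairs with a vanishing second coordinate and no common zero -/
lemma Eq19.classify_zero {i : k} (hi : i * i = -1) (h2 : (2 : k) ≠ 0) {a b : Fin 4 → k}
    (ha : a ≠ 0) (hb : b ≠ 0) (h : Eq19 i a b) (h0 : a 1 * b 1 = 0) (h1 : a 1 ≠ 0 ∨ b 1 ≠ 0) :
    ∃ (j : Idx19 i) (c e : k), c ≠ 0 ∧ e ≠ 0 ∧ a = c • pt19 i j ∧
      b = e • pt19 i (sig19 i hi j) := by
  have hi0 := na_i hi
  obtain ⟨e0, e1, e2, e3, e4, e5⟩ := h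
  by_cases ha1 : a 1 = 0
  · have hb1 : b 1 ≠ 0 := by
      rcases h1 with h1 | h1
      · exact absurd ha1 h1
      · exact h1
    have ha0 : a 0 = 0 := by
      rw [ha1] at e4
      have : a 0 * b 1 = 0 := by linear_combination e4
      exact (mul_eq_zero.1 this).resolve_right hb1
    have ha3 : a 3 = 0 := by
      rw [ha1] at e5
      have : i * (a 3 * b 1) = 0 := by linear_combination e5
      exact (mul_eq_zero.1 ((mul_eq_zero.1 this).resolve_left hi0)).resolve_right hb1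
    have ha2 := na_ne ha ha0 ha1 ha3
    simp only [ha0, ha3] at e0 e1 e2
    have hb2 : b 2 = 0 := by
      have : 2 * (a 2 * b 2) = 0 := by linear_combination -e0
      exact (mul_eq_zero.1 ((mul_eq_zero.1 this).resolve_left h2)).resolve_left ha2
    simp only [hb2] at e1 e2
    have hb0 : b 0 = 0 := by
      have : a 2 * b 0 = 0 := by linear_combination e1
      exact (mul_eq_zero.1 this).resolve_left ha2
    have hb3 : b 3 = 0 := by
      have : a 2 * b 3 = 0 := by linear_combination e2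
      exact (mul_eq_zero.1 this).resolve_left ha2
    refine ⟨Sum.inl 1, a 2, b 1, ha2, hb1, ?_, ?_⟩
    · ext j
      fin_cases j <;> simp [pt19, ha0, ha1, ha3]
    · ext j
      fin_cases j <;> simp [pt19, sig19, hb0, hb2, hb3]
  · have hb1 : b 1 = 0 := (mul_eq_zero.1 h0).resolve_left ha1
    have hb0 : b 0 = 0 := by
      rw [hb1] at e4
      have : i * (a 1 * b 0) = 0 := by linear_combination e4
      exact (mul_eq_zero.1 ((mul_eq_zero.1 this).resolve_left hi0)).resolve_left ha1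
    have hb3 : b 3 = 0 := by
      rw [hb1] at e5
      have : a 1 * b 3 = 0 := by linear_combination e5
      exact (mul_eq_zero.1 this).resolve_left ha1
    have hb2 := na_ne hb hb0 hb1 hb3
    simp only [hb0, hb3] at e0 e1 e2
    have ha2 : a 2 = 0 := by
      have : 2 * (a 2 * b 2) = 0 := by linear_combination -e0
      exact (mul_eq_zero.1 ((mul_eq_zero.1 this).resolve_left h2)).resolve_right hb2
    simp only [ha2] at e1 e2
    have ha0 : a 0 = 0 := by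
      have : a 0 * b 2 = 0 := by linear_combination e1
      exact (mul_eq_zero.1 this).resolve_right hb2
    have ha3 : a 3 = 0 := by
      have : a 3 * b 2 = 0 := by linear_combination e2
      exact (mul_eq_zero.1 this).resolve_right hb2
    refine ⟨Sum.inl 0, a 1, b 2, ha1, hb2, ?_, ?_⟩
    · ext j
      fin_cases j <;> simp [pt19, ha0, ha2, ha3]
    · ext j
      fin_cases j <;> simp [pt19, sig19, hb0, hb1, hb3]
/- END na -/

/- MODULE nb -/
/-- proportional first and last coordinates -/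
private lemma nb_prop {a0 a3 b0 b3 : k} (h : a0 * b3 = a3 * b0) (ha : a0 ≠ 0 ∨ a3 ≠ 0) :
    ∃ l : k, b0 = l * a0 ∧ b3 = l * a3 := by
  rcases ha with ha | ha
  · refine ⟨b0 / a0, by field_simp, ?_⟩
    field_simp
    linear_combination h
  · refine ⟨b3 / a3, ?_, by field_simp⟩
    field_simp
    linear_combination -h

/-- the pairs with both second coordinates zero -/
lemma Eq19.classify_S {i : k} (hi : i * i = -1) (h2 : (2 : k) ≠ 0)
    {a b : Fin 4 → k} (ha : a ≠ 0) (hb : b ≠ 0) (h : Eq19 i a b) (h1 : a 1 = 0) (h1' : b 1 = 0) :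
    ∃ (j : Idx19 i) (c e : k), c ≠ 0 ∧ e ≠ 0 ∧ a = c • pt19 i j ∧
      b = e • pt19 i (sig19 i hi j) := by
  obtain ⟨e0, e1, e2, e3, e4, e5⟩ := h
  rw [h1, h1'] at e3
  have hac : a 0 ≠ 0 ∨ a 3 ≠ 0 := by
    by_contra hcon
    push Not at hcon
    obtain ⟨ha0, ha3⟩ := hcon
    have ha2 := na_ne ha ha0 h1 ha3
    simp only [ha0, ha3] at e0 e1 e2
    have hb2 : b 2 = 0 := by
      have : 2 * (a 2 * b 2) = 0 := by linear_combination -e0
      exact (mul_eq_zero.1 ((mul_eq_zero.1 this).resolve_left h2)).resolve_left ha2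
    simp only [hb2] at e1 e2
    have hb0 : b 0 = 0 := by
      have : a 2 * b 0 = 0 := by linear_combination e1
      exact (mul_eq_zero.1 this).resolve_left ha2
    have hb3 : b 3 = 0 := by
      have : a 2 * b 3 = 0 := by linear_combination e2
      exact (mul_eq_zero.1 this).resolve_left ha2
    exact na_ne hb hb0 h1' hb3 hb2
  obtain ⟨l, hl0, hl3⟩ := nb_prop (a0 := a 0) (a3 := a 3) (b0 := b 0) (b3 := b 3)
    (by linear_combination e3) hac
  have hl : l ≠ 0 := by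
    rintro rfl
    have hb0 : b 0 = 0 := by rw [hl0, zero_mul]
    have hb3 : b 3 = 0 := by rw [hl3, zero_mul]
    have hb2 := na_ne hb hb0 h1' hb3
    simp only [hb0, hb3] at e0 e1 e2
    have ha2 : a 2 = 0 := by
      have : 2 * (a 2 * b 2) = 0 := by linear_combination -e0
      exact (mul_eq_zero.1 ((mul_eq_zero.1 this).resolve_left h2)).resolve_right hb2
    simp only [ha2] at e1 e2
    have ha0 : a 0 = 0 := by
      have : a 0 * b 2 = 0 := by linear_combination e1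
      exact (mul_eq_zero.1 this).resolve_right hb2
    have ha3 : a 3 = 0 := by
      have : a 3 * b 2 = 0 := by linear_combination e2
      exact (mul_eq_zero.1 this).resolve_right hb2
    rcases hac with h | h
    · exact h ha0
    · exact h ha3
  obtain ⟨β, hβ⟩ : ∃ β, b 2 = l * β := ⟨b 2 / l, by field_simp⟩
  rw [hl0, hl3, hβ] at e0
  rw [hl0, hβ] at e1
  rw [hl3, hβ] at e2
  have f0 : a 0 * a 0 + a 3 * a 3 = 2 * (a 2 * β) := by
    apply mul_left_cancel₀ hl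
    linear_combination e0
  have f1 : a 0 * (a 2 + β) = (1 - i) * (a 0 * a 0) + (1 + i) * (a 2 * β) := by
    apply mul_left_cancel₀ hl
    linear_combination e1
  have f2 : a 3 * (a 2 + β) = (1 - i) * (a 3 * a 3) + (1 + i) * (a 2 * β) := by
    apply mul_left_cancel₀ hl
    linear_combination e2
  by_cases heq : a 0 = a 3
  · rw [heq] at f0 f1
    have ha3 : a 3 ≠ 0 := by
      rcases hac with h | h
      · rwa [heq] at h
      · exact h
    have g1 : a 2 * β = a 3 * a 3 := by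
      apply mul_left_cancel₀ h2
      linear_combination -f0
    have g2 : a 2 + β = 2 * a 3 := by
      apply mul_left_cancel₀ ha3
      linear_combination f2 + (1 + i) * g1
    have g3 : (a 2 - a 3) ^ 2 = 0 := by
      linear_combination a 2 * g2 - g1
    have g4 : a 2 = a 3 := by
      have := pow_eq_zero_iff (two_ne_zero) |>.1 g3
      exact sub_eq_zero.1 this
    have g5 : β = a 3 := by linear_combination g2 - g4
    refine ⟨Sum.inl 2, a 3, l * a 3, ha3, mul_ne_zero hl ha3, ?_, ?_⟩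
    · ext j
      fin_cases j <;> simp [pt19, heq, h1, g4]
    · ext j
      fin_cases j <;> simp [pt19, sig19, hl0, heq, h1', hβ, g5, hl3]
  · have hne : a 0 - a 3 ≠ 0 := sub_ne_zero.2 heq
    have g1 : a 2 + β = (1 - i) * (a 0 + a 3) := by
      apply mul_left_cancel₀ hne
      linear_combination f1 - f2
    have g2 : a 2 * β = -i * (a 0 * a 3) := by
      apply mul_left_cancel₀ h2
      have : (1 + i) * (a 2 * β) = (1 - i) * (a 0 * a 3) := by
        rw [g1] at f1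
        linear_combination -f1
      linear_combination (1 - i) * this + (a 2 * β + a 0 * a 3) * hi
    have g3 : a 0 * a 0 + 2 * i * (a 0 * a 3) + a 3 * a 3 = 0 := by
      linear_combination f0 + 2 * g2
    have ha3 : a 3 ≠ 0 := by
      intro ha3
      rw [ha3] at g3
      have : a 0 * a 0 = 0 := by linear_combination g3
      have ha0 : a 0 = 0 := by simpa using this
      rcases hac with h | h
      · exact h ha0
      · exact h ha3
    obtain ⟨s, hs⟩ : ∃ s, s = (a 2 - β) / (2 * a 3) := ⟨_, rfl⟩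
    have hs' : 2 * a 3 * s = a 2 - β := by
      rw [hs]
      field_simp
    have hs2 : a 3 * s ^ 2 = -a 0 := by
      have h4 : (4 : k) ≠ 0 := by
        have : (4 : k) = 2 * 2 := by norm_num
        rw [this]
        exact mul_ne_zero h2 h2
      apply mul_left_cancel₀ ha3
      apply mul_left_cancel₀ h4
      have e5 : 4 * (a 3 * (a 3 * s ^ 2)) = (a 2 - β) ^ 2 := by
        rw [← hs']
        ring
      have e6 : (a 2 - β) ^ 2 = (a 2 + β) ^ 2 - 4 * (a 2 * β) := by ring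
      rw [e5, e6, g1, g2]
      linear_combination (-2 * i) * g3 + ((a 0 + a 3) ^ 2 + 4 * (a 0 * a 3)) * hi
    have hs4 : s ^ 4 - 2 * i * s ^ 2 + 1 = 0 := by
      apply mul_left_cancel₀ (mul_ne_zero ha3 ha3)
      linear_combination (a 3 * s ^ 2 - a 0 - 2 * i * a 3) * hs2 + g3
    have hcoord : ∀ t : k, a 3 * ((1 - i) * (1 - s ^ 2) / 2 + t) =
        (1 - i) * (a 0 + a 3) / 2 + a 3 * t := by
      intro t
      field_simp
      linear_combination -(1 - i) * hs2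
    have ha2 : a 2 = a 3 * ((1 - i) * (1 - s ^ 2) / 2 + s) := by
      rw [hcoord s, ← g1]
      apply mul_left_cancel₀ h2
      field_simp
      linear_combination -hs'
    have hβ2 : β = a 3 * ((1 - i) * (1 - (-s) ^ 2) / 2 + -s) := by
      have e7 : (-s) ^ 2 = s ^ 2 := by ring
      rw [e7, hcoord (-s), ← g1]
      apply mul_left_cancel₀ h2
      field_simp
      linear_combination hs'
    have ha0 : a 0 = a 3 * -s ^ 2 := by linear_combination hs2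
    refine ⟨Sum.inr (Sum.inl ⟨s, hs4⟩), a 3, l * a 3, ha3, mul_ne_zero hl ha3, ?_, ?_⟩
    · ext j
      fin_cases j
      · simpa [pt19, pS] using ha0
      · simpa [pt19, pS] using h1
      · simpa [pt19, pS] using ha2
      · simp [pt19, pS]
    · ext j
      fin_cases j
      · have : b 0 = l * a 3 * -(-s) ^ 2 := by rw [hl0, ha0]; ring
        simpa [pt19, pS, sig19] using this
      · simpa [pt19, pS, sig19] using h1'
      · have : b 2 = l * a 3 * ((1 - i) * (1 - (-s) ^ 2) / 2 + -s) := by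
          rw [hβ]
          conv_lhs => rw [hβ2]
          ring
        simpa [pt19, pS, sig19] using this
      · simpa [pt19, pS, sig19] using hl3
/- END nb -/

/- MODULE nc -/
private lemma nc_16 (h2 : (2 : k) ≠ 0) : (16 : k) ≠ 0 := by
  have : (16 : k) = 2 ^ 4 := by norm_num
  rw [this]
  exact pow_ne_zero 4 h2

private lemma nc_i0 {i : k} (hi : i * i = -1) : i ≠ 0 := by
  rintro rfl
  simp at hi

private lemma nc_p0 {i p : k} (h : (p ^ 4 + 1) * ((p ^ 4) ^ 2 - (2 + 4 * i) * p ^ 4 + 1) = 0) : p ≠ 0 := by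
  rintro rfl
  simp at h

private lemma nc_hR {i p t : k} (hi : i * i = -1) (hpt : p * t = 1)
    (h : (p ^ 4 + 1) * ((p ^ 4) ^ 2 - (2 + 4 * i) * p ^ 4 + 1) = 0) :
    p ^ 6 + t ^ 6 + 3 * (p ^ 2 + t ^ 2) = 4 * (1 + i) * (p ^ 2 + t ^ 2) := by
  linear_combination t ^ 6 * h + (4*i*p^7*t^5 + 4*i*p^6*t^4 + 4*i*p^5*t^3 + 4*i*p^4*t^2 + 4*i*p^3*t^5 + 4*i*p^3*t + 4*i*p^2*t^4 + 4*i*p^2 + 4*i*p*t^3 + 4*i*t^2 - p^11*t^5 - p^10*t^4 - p^9*t^3 - p^8*t^2 + p^7*t^5 - p^7*t + p^6*t^4 - p^6 + p^5*t^3 + p^4*t^2 + p^3*t^5 + p^3*t + p^2*t^4 + p^2 + p*t^3 + t^2) * hpt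

private lemma nc_Rel {i p t : k} (hi : i * i = -1) (hpt : p * t = 1)
    (hR : p ^ 6 + t ^ 6 + 3 * (p ^ 2 + t ^ 2) = 4 * (1 + i) * (p ^ 2 + t ^ 2)) :
    (p ^ 4 + 1) * ((p ^ 4) ^ 2 - (2 + 4 * i) * p ^ 4 + 1) = 0 := by
  linear_combination p ^ 6 * hR + (4*i*p^5*t + 4*i*p^4 - p^5*t^5 + p^5*t - p^4*t^4 + p^4 - p^3*t^3 - p^2*t^2 - p*t - 1) * hpt

/-- four times the third coordinate -/
private lemma nc_A {i p t : k} (hi : i * i = -1) (h2 : (2 : k) ≠ 0) (hpt : p * t = 1) :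
    4 * (pP i p) 2 = (1 + i) * (-i * (p ^ 2 + t ^ 2) * (t + i * p) - 2 * p - 2 * i * t) := by
  have ht : p⁻¹ = t := (eq_inv_of_mul_eq_one_right hpt).symm
  have h4 : (4 : k) ≠ 0 := by
    have : (4 : k) = 2 ^ 2 := by norm_num
    rw [this]
    exact pow_ne_zero 2 h2
  show 4 * ((1 + i) / 2 * (-i * (p ^ 2 + (p⁻¹) ^ 2) / 2 * (p⁻¹ + i * p) - p - i * p⁻¹)) = _
  rw [ht]
  field_simp
  ring

private lemma nc_B {i p t : k} (hi : i * i = -1) (h2 : (2 : k) ≠ 0) (hpt : p * t = 1) :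
    4 * (pP i (i * p)) 2 = (1 + i) * (i * (p ^ 2 + t ^ 2) * (-i * t - p) - 2 * i * p - 2 * t) := by
  have h := nc_A (p := i * p) (t := -i * t) hi h2 (by linear_combination (-p * t) * hi + hpt)
  rw [h]
  have h3 : (i * p) ^ 2 + (-i * t) ^ 2 = -(p ^ 2 + t ^ 2) := by linear_combination (p ^ 2 + t ^ 2) * hi
  rw [h3]
  linear_combination (1 + i) * ((p ^ 2 + t ^ 2) * i * p + 2 * t) * hi

private lemma nc_eqs {i p t A B : k} (hi : i * i = -1) (h2 : (2 : k) ≠ 0) (hpt : p * t = 1)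
    (hR : p ^ 6 + t ^ 6 + 3 * (p ^ 2 + t ^ 2) = 4 * (1 + i) * (p ^ 2 + t ^ 2))
    (hA : 4 * A = (1 + i) * (-i * (p ^ 2 + t ^ 2) * (t + i * p) - 2 * p - 2 * i * t))
    (hB : 4 * B = (1 + i) * (i * (p ^ 2 + t ^ 2) * (-i * t - p) - 2 * i * p - 2 * t)) :
    (-i * p) * p + t * (-i * t) = 2 * (A * B) ∧
    (-i * p) * B + A * p = (1 - i) * ((-i * p) * p) + (1 + i) * (A * B) ∧
    A * (-i * t) + t * B = (1 - i) * (t * (-i * t)) + (1 + i) * (A * B) := by
  refine ⟨?_, ?_, ?_⟩ <;> apply mul_left_cancel₀ (nc_16 h2)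
  · linear_combination (-2) * (4 * B * hA + ((1 + i) * (-i * (p ^ 2 + t ^ 2) * (t + i * p) - 2 * p - 2 * i * t)) * hB) + (-2*i^4*p^5*t - 4*i^4*p^3*t^3 - 2*i^4*p*t^5 - 2*i^3*p^6 - 4*i^3*p^5*t - 6*i^3*p^4*t^2 - 4*i^3*p^4 - 8*i^3*p^3*t^3 - 6*i^3*p^2*t^4 - 8*i^3*p^2*t^2 - 4*i^3*p*t^5 - 2*i^3*t^6 - 4*i^3*t^4 - 4*i^2*p^6 - 2*i^2*p^5*t - 12*i^2*p^4*t^2 - 8*i^2*p^4 - 4*i^2*p^3*t^3 - 16*i^2*p^3*t - 12*i^2*p^2*t^4 - 16*i^2*p^2*t^2 - 2*i^2*p*t^5 - 16*i^2*p*t^3 - 8*i^2*p*t - 4*i^2*t^6 - 8*i^2*t^4 - 4*i*p^4 - 32*i*p^3*t - 8*i*p^2*t^2 - 8*i*p^2 - 32*i*p*t^3 - 16*i*p*t - 4*i*t^4 - 8*i*t^2 + 4*p^6 + 12*p^4*t^2 + 12*p^2*t^4 - 16*p^2 - 8*p*t + 4*t^6 - 16*t^2) * hi + (32*i*p^2 + 32*i*t^2 - 12*p^3*t - 12*p^2 - 12*p*t^3 - 12*t^2) * hpt + (-4) * hR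
  · linear_combination 4 * (-i * p) * hB + 4 * p * hA - (1 + i) * (4 * B * hA + ((1 + i) * (-i * (p ^ 2 + t ^ 2) * (t + i * p) - 2 * p - 2 * i * t)) * hB) + (-i^5*p^5*t - 2*i^5*p^3*t^3 - i^5*p*t^5 - i^4*p^6 - 3*i^4*p^5*t - 3*i^4*p^4*t^2 - 2*i^4*p^4 - 6*i^4*p^3*t^3 - 3*i^4*p^2*t^4 - 4*i^4*p^2*t^2 - 3*i^4*p*t^5 - i^4*t^6 - 2*i^4*t^4 - 3*i^3*p^6 - 3*i^3*p^5*t - 9*i^3*p^4*t^2 - 6*i^3*p^4 - 6*i^3*p^3*t^3 - 8*i^3*p^3*t - 9*i^3*p^2*t^4 - 12*i^3*p^2*t^2 - 3*i^3*p*t^5 - 8*i^3*p*t^3 - 4*i^3*p*t - 3*i^3*t^6 - 6*i^3*t^4 - 2*i^2*p^6 - i^2*p^5*t - 6*i^2*p^4*t^2 - 6*i^2*p^4 - 2*i^2*p^3*t^3 - 20*i^2*p^3*t - 6*i^2*p^2*t^4 - 12*i^2*p^2*t^2 - 4*i^2*p^2 - i^2*p*t^5 - 20*i^2*p*t^3 - 12*i^2*p*t - 2*i^2*t^6 - 6*i^2*t^4 - 4*i^2*t^2 + 2*i*p^6 + 6*i*p^4*t^2 - 2*i*p^4 - 12*i*p^3*t + 6*i*p^2*t^4 - 4*i*p^2*t^2 - 4*i*p^2 - 12*i*p*t^3 - 12*i*p*t + 2*i*t^6 - 2*i*t^4 - 12*i*t^2 + 2*p^6 + 6*p^4*t^2 + 8*p^3*t + 6*p^2*t^4 - 24*p^2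 + 8*p*t^3 - 4*p*t + 2*t^6 - 16*t^2) * hi + (-6*i*p^3*t + 2*i*p^2 - 6*i*p*t^3 + 2*i*t^2 - 6*p^3*t - 14*p^2 - 6*p*t^3 - 14*t^2) * hpt + (-2*i - 2) * hR
  · linear_combination 4 * (-i * t) * hA + 4 * t * hB - (1 + i) * (4 * B * hA + ((1 + i) * (-i * (p ^ 2 + t ^ 2) * (t + i * p) - 2 * p - 2 * i * t)) * hB) + (-i^5*p^5*t - 2*i^5*p^3*t^3 - i^5*p*t^5 - i^4*p^6 - 3*i^4*p^5*t - 3*i^4*p^4*t^2 - 2*i^4*p^4 - 6*i^4*p^3*t^3 - 3*i^4*p^2*t^4 - 4*i^4*p^2*t^2 - 3*i^4*p*t^5 - i^4*t^6 - 2*i^4*t^4 - 3*i^3*p^6 - 3*i^3*p^5*t - 9*i^3*p^4*t^2 - 6*i^3*p^4 - 6*i^3*p^3*t^3 - 8*i^3*p^3*t - 9*i^3*p^2*t^4 - 12*i^3*p^2*t^2 - 3*i^3*p*t^5 - 8*i^3*p*t^3 - 4*i^3*p*t - 3*i^3*t^6 - 6*i^3*t^4 - 2*i^2*p^6 - i^2*p^5*t - 6*i^2*p^4*t^2 - 6*i^2*p^4 - 2*i^2*p^3*t^3 - 20*i^2*p^3*t - 6*i^2*p^2*t^4 - 12*i^2*p^2*t^2 - 4*i^2*p^2 - i^2*p*t^5 - 20*i^2*p*t^3 - 12*i^2*p*t - 2*i^2*t^6 - 6*i^2*t^4 - 4*i^2*t^2 + 2*i*p^6 + 6*i*p^4*t^2 - 2*i*p^4 - 12*i*p^3*t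 + 6*i*p^2*t^4 - 4*i*p^2*t^2 - 12*i*p^2 - 12*i*p*t^3 - 12*i*p*t + 2*i*t^6 - 2*i*t^4 - 4*i*t^2 + 2*p^6 + 6*p^4*t^2 + 8*p^3*t + 6*p^2*t^4 - 16*p^2 + 8*p*t^3 - 4*p*t + 2*t^6 - 24*t^2) * hi + (-6*i*p^3*t + 2*i*p^2 - 6*i*p*t^3 + 2*i*t^2 - 6*p^3*t - 14*p^2 - 6*p*t^3 - 14*t^2) * hpt + (-2*i - 2) * hR

private lemma nc_hR' {i p t A B : k} (hi : i * i = -1) (h2 : (2 : k) ≠ 0) (hpt : p * t = 1)
    (hA : 4 * A = (1 + i) * (-i * (p ^ 2 + t ^ 2) * (t + i * p) - 2 * p - 2 * i * t))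
    (hB : 4 * B = (1 + i) * (i * (p ^ 2 + t ^ 2) * (-i * t - p) - 2 * i * p - 2 * t))
    (h0 : (-i * p) * p + t * (-i * t) = 2 * (A * B)) :
    p ^ 6 + t ^ 6 + 3 * (p ^ 2 + t ^ 2) = 4 * (1 + i) * (p ^ 2 + t ^ 2) := by
  have h4 : (4 : k) ≠ 0 := by
    have : (4 : k) = 2 ^ 2 := by norm_num
    rw [this]
    exact pow_ne_zero 2 h2
  apply mul_left_cancel₀ h4
  linear_combination (-2*i^4*p^5*t - 4*i^4*p^3*t^3 - 2*i^4*p*t^5 - 2*i^3*p^6 - 4*i^3*p^5*t - 6*i^3*p^4*t^2 - 4*i^3*p^4 - 8*i^3*p^3*t^3 - 6*i^3*p^2*t^4 - 8*i^3*p^2*t^2 - 4*i^3*p*t^5 - 2*i^3*t^6 - 4*i^3*t^4 - 4*i^2*p^6 - 2*i^2*p^5*t - 12*i^2*p^4*t^2 - 8*i^2*p^4 - 4*i^2*p^3*t^3 - 16*i^2*p^3*t - 12*i^2*p^2*t^4 - 16*i^2*p^2*t^2 - 2*i^2*p*t^5 - 16*i^2*p*t^3 - 8*i^2*p*t - 4*i^2*t^6 - 8*i^2*t^4 - 4*i*p^4 - 32*i*p^3*t - 8*i*p^2*t^2 - 8*i*p^2 - 32*i*p*t^3 - 16*i*p*t - 4*i*t^4 - 8*i*t^2 + 4*p^6 + 12*p^4*t^2 + 12*p^2*t^4 - 16*p^2 - 8*p*t + 4*t^6 - 16*t^2)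 * hi + (32*i*p^2 + 32*i*t^2 - 12*p^3*t - 12*p^2 - 12*p*t^3 - 12*t^2) * hpt - 2 * (4 * B * hA + ((1 + i) * (-i * (p ^ 2 + t ^ 2) * (t + i * p) - 2 * p - 2 * i * t)) * hB) - 16 * h0

private lemma nc_AB {i p t A B : k} (hi : i * i = -1) (hpt : p * t = 1)
    (E0 : (-i * p) * p + t * (-i * t) = 2 * (A * B))
    (E1 : (-i * p) * B + A * p = (1 - i) * ((-i * p) * p) + (1 + i) * (A * B))
    (E2 : A * (-i * t) + t * B = (1 - i) * (t * (-i * t)) + (1 + i) * (A * B)) :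
    4 * A = (1 + i) * (-i * (p ^ 2 + t ^ 2) * (t + i * p) - 2 * p - 2 * i * t) ∧
    4 * B = (1 + i) * (i * (p ^ 2 + t ^ 2) * (-i * t - p) - 2 * i * p - 2 * t) := by
  constructor
  · linear_combination 2 * (t * E1 + i * p * E2) - (1 + i) * (t + i * p) * E0 + (2*A*p*t + 2*i*p*t^2 + 2*p^2*t - 2*p*t^2 + 2*t) * hi + (-4*A - 2*i*p - 2*i*t - 2*p + 2*t) * hpt
  · linear_combination 2 * (p * E2 + i * t * E1) - (1 + i) * (p + i * t) * E0 + (2*B*p*t + 2*i*p^2*t - 2*p^2*t + 2*p*t^2 + 2*p) * hi + (-4*B - 2*i*p - 2*i*t + 2*p - 2*t) * hpt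

private lemma nc_pP {i p : k} (hi : i * i = -1) : (pP i (i * p)) 0 = p ∧ (pP i (i * p)) 3 = -i * p⁻¹ := by
  constructor
  · show -i * (i * p) = p
    linear_combination (-p) * hi
  · show (i * p)⁻¹ = _
    rw [mul_inv]
    have : i⁻¹ = -i := by
      rw [inv_eq_iff_eq_inv, eq_comm]
      apply inv_eq_of_mul_eq_one_right
      linear_combination -hi
    rw [this]

/-- the pairs with both second coordinates different from zero -/
lemma Eq19.classify_P {i : k} (hi : i * i = -1) (h2 : (2 : k) ≠ 0)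
    {a b : Fin 4 → k} (h : Eq19 i a b) (h1 : a 1 ≠ 0) (h1' : b 1 ≠ 0) :
    ∃ (j : Idx19 i) (c e : k), c ≠ 0 ∧ e ≠ 0 ∧ a = c • pt19 i j ∧
      b = e • pt19 i (sig19 i hi j) := by
  have h4 : (4 : k) ≠ 0 := by
    have : (4 : k) = 2 ^ 2 := by norm_num
    rw [this]
    exact pow_ne_zero 2 h2
  obtain ⟨c, hc⟩ : ∃ c, c = a 1 := ⟨_, rfl⟩
  obtain ⟨e, he⟩ : ∃ e, e = b 1 := ⟨_, rfl⟩
  rw [← hc] at h1
  rw [← he] at h1'
  obtain ⟨p, hp⟩ : ∃ p, b 0 = e * p := ⟨b 0 / e, by field_simp⟩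
  obtain ⟨t, ht⟩ : ∃ t, a 3 = c * t := ⟨a 3 / c, by field_simp⟩
  obtain ⟨A, hA⟩ : ∃ A, a 2 = c * A := ⟨a 2 / c, by field_simp⟩
  obtain ⟨B, hB⟩ : ∃ B, b 2 = e * B := ⟨b 2 / e, by field_simp⟩
  have hce : c * e ≠ 0 := mul_ne_zero h1 h1'
  have ha0 : a 0 = c * (-i * p) := by
    apply mul_left_cancel₀ h1'
    have := h.e4
    rw [← hc, ← he, hp] at this
    linear_combination this
  have hb3 : b 3 = e * (-i * t) := by
    apply mul_left_cancel₀ h1
    have := h.e5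
    rw [← hc, ← he, ht] at this
    linear_combination this
  have hpt : p * t = 1 := by
    apply mul_left_cancel₀ (mul_ne_zero h2 hce)
    have := h.e3
    rw [← hc, ← he, ht, hp, ha0, hb3] at this
    linear_combination (-1) * this + (c * e * p * t) * hi
  have E0 : (-i * p) * p + t * (-i * t) = 2 * (A * B) := by
    apply mul_left_cancel₀ hce
    have := h.e0
    rw [ht, hp, ha0, hb3, hA, hB] at this
    linear_combination this
  have E1 : (-i * p) * B + A * p = (1 - i) * ((-i * p) * p) + (1 + i) * (A * B) := by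
    apply mul_left_cancel₀ hce
    have := h.e1
    rw [hp, ha0, hA, hB] at this
    linear_combination this
  have E2 : A * (-i * t) + t * B = (1 - i) * (t * (-i * t)) + (1 + i) * (A * B) := by
    apply mul_left_cancel₀ hce
    have := h.e2
    rw [ht, hb3, hA, hB] at this
    linear_combination this
  obtain ⟨fA, fB⟩ := nc_AB hi hpt E0 E1 E2
  have hR := nc_Rel hi hpt (nc_hR' hi h2 hpt fA fB E0)
  have hpt' : p⁻¹ = t := (eq_inv_of_mul_eq_one_right hpt).symm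
  have gA : A = (pP i p) 2 := mul_left_cancel₀ h4 (fA.trans (nc_A hi h2 hpt).symm)
  have gB : B = (pP i (i * p)) 2 := mul_left_cancel₀ h4 (fB.trans (nc_B hi h2 hpt).symm)
  obtain ⟨b0, b3⟩ := nc_pP (i := i) (p := p) hi
  refine ⟨Sum.inr (Sum.inr ⟨p, hR⟩), c, e, h1, h1', ?_, ?_⟩
  · ext l
    fin_cases l
    · exact ha0
    · show a 1 = c * 1
      rw [← hc, mul_one]
    · show a 2 = c * (pP i p) 2
      rw [hA, gA]
    · show a 3 = c * p⁻¹
      rw [hpt', ht]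
  · ext l
    fin_cases l
    · show b 0 = e * (pP i (i * p)) 0
      rw [b0, hp]
    · show b 1 = e * 1
      rw [← he, mul_one]
    · show b 2 = e * (pP i (i * p)) 2
      rw [hB, gB]
    · show b 3 = e * (pP i (i * p)) 3
      rw [b3, hb3, hpt']
/- END nc -/

/- MODULE nd -/
private lemma nd_S {i s A B : k} (hi : i * i = -1) (h2 : (2 : k) ≠ 0) (hs : s ^ 4 - 2 * i * s ^ 2 + 1 = 0)
    (hA : 2 * A = (1 - i) * (1 - s ^ 2) + 2 * s) (hB : 2 * B = (1 - i) * (1 - s ^ 2) - 2 * s) :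
    (-s ^ 2) * (-s ^ 2) + 1 * 1 = 2 * (A * B) ∧
    (-s ^ 2) * B + A * (-s ^ 2) = (1 - i) * ((-s ^ 2) * (-s ^ 2)) + (1 + i) * (A * B) ∧
    A * 1 + 1 * B = (1 - i) * (1 * 1) + (1 + i) * (A * B) := by
  have h4 : (4 : k) ≠ 0 := by
    have : (4 : k) = 2 ^ 2 := by norm_num
    rw [this]
    exact pow_ne_zero 2 h2
  refine ⟨?_, ?_, ?_⟩ <;> apply mul_left_cancel₀ h4
  · linear_combination (-2) * (2 * B * hA + ((1 - i) * (1 - s ^ 2) + 2 * s) * hB) + (-2*s^4 + 12*s^2 - 2) * hi + (4*i + 4) * hs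
  · linear_combination 2 * (-s ^ 2) * hB + 2 * (-s ^ 2) * hA - (1 + i) * (2 * B * hA + ((1 - i) * (1 - s ^ 2) + 2 * s) * hB) + (-i*s^4 + 2*i*s^2 - i + s^4 + 2*s^2 + 1) * hi + (2*i - 2) * hs
  · linear_combination 2 * hA + 2 * hB - (1 + i) * (2 * B * hA + ((1 - i) * (1 - s ^ 2) + 2 * s) * hB) + (-i*s^4 + 2*i*s^2 - i + s^4 + 2*s^2 + 1) * hi + (2*i - 2) * hs

lemma gam_pt19 {i : k} (hi : i * i = -1) (h2 : (2 : k) ≠ 0) (j : Idx19 i) :
    Gam (r19 i) (pt19 i j) (pt19 i (sig19 i hi j)) := by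
  rw [gam_r19_iff]
  rcases j with j | s | p
  · fin_cases j
    · constructor <;> simp [pt19, sig19]
    · constructor <;> simp [pt19, sig19]
    · constructor <;> simp [pt19, sig19] <;> ring
  · obtain ⟨s, hs⟩ := s
    have hA : 2 * (pS i s) 2 = (1 - i) * (1 - s ^ 2) + 2 * s := by
      show 2 * ((1 - i) * (1 - s ^ 2) / 2 + s) = _
      field_simp
    have hB : 2 * (pS i (-s)) 2 = (1 - i) * (1 - s ^ 2) - 2 * s := by
      show 2 * ((1 - i) * (1 - (-s) ^ 2) / 2 + -s) = _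
      field_simp
      ring
    obtain ⟨h0, h1, h3⟩ := nd_S hi h2 hs hA hB
    have b0 : (pS i (-s)) 0 = -s ^ 2 := by
      show -(-s) ^ 2 = _
      ring
    constructor
    · show (pS i s) 0 * (pS i (-s)) 0 + 1 * 1 = 2 * ((pS i s) 2 * (pS i (-s)) 2)
      rw [b0]
      exact h0
    · show (pS i s) 0 * (pS i (-s)) 2 + (pS i s) 2 * (pS i (-s)) 0 = (1 - i) * ((pS i s) 0 * (pS i (-s)) 0) +
        (1 + i) * ((pS i s) 2 * (pS i (-s)) 2)
      rw [b0]
      exact h1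
    · exact h3
    · show (pS i s) 0 * 1 - 1 * (pS i (-s)) 0 + 2 * (0 * 0) = 0
      rw [b0]
      show (-s ^ 2) * 1 - 1 * (-s ^ 2) + 2 * (0 * 0) = 0
      ring
    · show (pS i s) 0 * 0 + i * (0 * (pS i (-s)) 0) = 0
      ring
    · show (0 : k) * 1 + i * (1 * 0) = 0
      ring
  · obtain ⟨p, hp⟩ := p
    have hp0 := nc_p0 hp
    have hpt : p * p⁻¹ = 1 := mul_inv_cancel₀ hp0
    have hi0 := nc_i0 hi
    obtain ⟨h0, h1, h3⟩ := nc_eqs hi h2 hpt (nc_hR hi hpt hp) (nc_A hi h2 hpt) (nc_B hi h2 hpt)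
    have b0 : (pP i (i * p)) 0 = p := by
      show -i * (i * p) = p
      linear_combination (-p) * hi
    have b3 : (pP i (i * p)) 3 = -i * p⁻¹ := by
      show (i * p)⁻¹ = _
      rw [mul_inv]
      have : i⁻¹ = -i := by
        rw [inv_eq_iff_eq_inv, eq_comm]
        apply inv_eq_of_mul_eq_one_right
        linear_combination -hi
      rw [this]
    constructor
    · show (-i * p) * (pP i (i * p)) 0 + p⁻¹ * (pP i (i * p)) 3 = 2 * ((pP i p) 2 * (pP i (i * p)) 2)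
      rw [b0, b3]
      exact h0
    · show (-i * p) * (pP i (i * p)) 2 + (pP i p) 2 * (pP i (i * p)) 0 = (1 - i) * ((-i * p) * (pP i (i * p)) 0) +
        (1 + i) * ((pP i p) 2 * (pP i (i * p)) 2)
      rw [b0]
      exact h1
    · show (pP i p) 2 * (pP i (i * p)) 3 + p⁻¹ * (pP i (i * p)) 2 = (1 - i) * (p⁻¹ * (pP i (i * p)) 3) +
        (1 + i) * ((pP i p) 2 * (pP i (i * p)) 2)
      rw [b3]
      exact h3
    · show (-i * p) * (pP i (i * p)) 3 - p⁻¹ * (pP i (i * p)) 0 + 2 * (1 * 1) = 0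
      rw [b0, b3]
      linear_combination (p * p⁻¹) * hi - 2 * hpt
    · show (-i * p) * 1 + i * (1 * (pP i (i * p)) 0) = 0
      rw [b0]
      ring
    · show (1 : k) * (pP i (i * p)) 3 + i * (p⁻¹ * 1) = 0
      rw [b3]
      ring
/- END nd -/

/- MODULE ne -/
lemma pt19_ne_zero {i : k} (j : Idx19 i) : pt19 i j ≠ 0 := by
  intro h
  rcases j with j | s | p
  · fin_cases j
    · exact one_ne_zero (congrFun h 1)
    · exact one_ne_zero (congrFun h 2)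
    · exact one_ne_zero (congrFun h 0)
  · exact one_ne_zero (congrFun h 3)
  · exact one_ne_zero (congrFun h 1)

private lemma ne_S1 {i s : k} (hi : i * i = -1) (h2 : (2 : k) ≠ 0) (hs : s ^ 4 - 2 * i * s ^ 2 + 1 = 0)
    (h : (1 : k) = -s ^ 2) : False := by
  have h1 : (2 : k) * (1 + i) = 0 := by linear_combination hs - (s ^ 2 - 1 - 2 * i) * h
  have h3 : (1 + i) = 0 := (mul_eq_zero.1 h1).resolve_left h2
  have h4 : (2 : k) = 0 := by linear_combination (1 - i) * h3 + hi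
  exact h2 h4

private lemma ne_cS {i s : k} {c : k} {v : Fin 4 → k} (h : v = c • pS i s) : v 1 = 0 ∧ v 3 = c ∧
    v 0 = c * (-s ^ 2) ∧ v 2 = c * ((1 - i) * (1 - s ^ 2) / 2 + s) := by
  subst h
  exact ⟨mul_zero c, mul_one c, rfl, rfl⟩

private lemma ne_cP {i p : k} {c : k} {v : Fin 4 → k} (h : v = c • pP i p) : v 1 = c ∧ v 3 = c * p⁻¹ := by
  subst h
  exact ⟨mul_one c, rfl⟩

lemma pt19_inj {i : k} (hi : i * i = -1) (h2 : (2 : k) ≠ 0) (j l : Idx19 i) (c : k)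
    (h : pt19 i j = c • pt19 i l) : j = l := by
  rcases j with j | ⟨s, hs⟩ | ⟨p, hp⟩
  · rcases l with l | ⟨s, hs⟩ | ⟨p, hp⟩
    · have e0 := congrFun h 0
      have e1 := congrFun h 1
      have e2 := congrFun h 2
      have e3 := congrFun h 3
      fin_cases j <;> fin_cases l <;> simp [pt19] at e0 e1 e2 e3 ⊢
      all_goals exact one_ne_zero (e2.trans e0.symm)
    · obtain ⟨f1, f3, f0, f2⟩ := ne_cS h
      exfalso
      fin_cases j
      · exact one_ne_zero f1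
      · have f3 : (0 : k) = c := f3
        rw [← f3, zero_mul] at f2
        exact one_ne_zero f2
      · have f3 : (1 : k) = c := f3
        rw [← f3, one_mul] at f0
        exact ne_S1 hi h2 hs f0
    · obtain ⟨f1, f3⟩ := ne_cP h
      have hp0 := inv_ne_zero (nc_p0 hp)
      exfalso
      fin_cases j
      · have f1 : (1 : k) = c := f1
        have f3 : (0 : k) = c * p⁻¹ := f3
        rw [← f1, one_mul] at f3
        exact hp0 f3.symm
      · have f1 : (0 : k) = c := f1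
        have f2 : (1 : k) = c * (pP i p) 2 := congrFun h 2
        rw [← f1, zero_mul] at f2
        exact one_ne_zero f2
      · have f1 : (0 : k) = c := f1
        have f2 : (1 : k) = c * (pP i p) 2 := congrFun h 2
        rw [← f1, zero_mul] at f2
        exact one_ne_zero f2
  · rcases l with l | ⟨s', hs'⟩ | ⟨p, hp⟩
    · have e0 : -s ^ 2 = c * (pt19 i (Sum.inl l)) 0 := congrFun h 0
      have e1 : (0 : k) = c * (pt19 i (Sum.inl l)) 1 := congrFun h 1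
      have e3 : (1 : k) = c * (pt19 i (Sum.inl l)) 3 := congrFun h 3
      exfalso
      fin_cases l
      · have e3 : (1 : k) = c * 0 := e3
        rw [mul_zero] at e3
        exact one_ne_zero e3
      · have e3 : (1 : k) = c * 0 := e3
        rw [mul_zero] at e3
        exact one_ne_zero e3
      · have e3 : (1 : k) = c * 1 := e3
        have e0 : -s ^ 2 = c * 1 := e0
        exact ne_S1 hi h2 hs (e3.trans e0.symm)
    · obtain ⟨f1, f3, f0, f2⟩ := ne_cS h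
      have f3 : (1 : k) = c := f3
      rw [← f3, one_mul] at f0 f2
      have f0 : -s ^ 2 = -s' ^ 2 := f0
      have f2 : (1 - i) * (1 - s ^ 2) / 2 + s = (1 - i) * (1 - s' ^ 2) / 2 + s' := f2
      have hss : s ^ 2 = s' ^ 2 := neg_injective f0
      rw [hss] at f2
      have : s = s' := add_left_cancel f2
      subst this
      rfl
    · obtain ⟨f1, f3⟩ := ne_cP h
      have f1 : (0 : k) = c := f1
      have f3 : (1 : k) = c * p⁻¹ := f3
      rw [← f1, zero_mul] at f3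
      exact absurd f3 one_ne_zero
  · rcases l with l | ⟨s, hs⟩ | ⟨p', hp'⟩
    · have e1 : (1 : k) = c * (pt19 i (Sum.inl l)) 1 := congrFun h 1
      have e3 : p⁻¹ = c * (pt19 i (Sum.inl l)) 3 := congrFun h 3
      exfalso
      fin_cases l
      · have e3 : p⁻¹ = c * 0 := e3
        rw [mul_zero] at e3
        exact inv_ne_zero (nc_p0 hp) e3
      · have e1 : (1 : k) = c * 0 := e1
        rw [mul_zero] at e1
        exact one_ne_zero e1
      · have e1 : (1 : k) = c * 0 := e1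
        rw [mul_zero] at e1
        exact one_ne_zero e1
    · obtain ⟨f1, f3, f0, f2⟩ := ne_cS h
      exact absurd f1 one_ne_zero
    · obtain ⟨f1, f3⟩ := ne_cP h
      have f1 : (1 : k) = c := f1
      have f3 : p⁻¹ = c * p'⁻¹ := f3
      rw [← f1, one_mul] at f3
      have : p = p' := inv_injective f3
      subst this
      rfl
/- END ne -/

/- MODULE nf -/
private def nf_e {α β : Type*} (f : β → α) (P : α → Prop) :
    {p : β // P (f p)} ≃ {q : α × β // P q.1 ∧ f q.2 = q.1} where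
  toFun p := ⟨(f p.1, p.1), p.2, rfl⟩
  invFun q := ⟨q.1.2, by rw [q.2.2]; exact q.2.1⟩
  left_inv p := rfl
  right_inv q := Subtype.ext (Prod.ext q.2.2 rfl)

private lemma nf_fib {α β : Type*} (f : β → α) (P : α → Prop) (n m : ℕ) (hn : Nat.card {a // P a} = n)
    (hn0 : n ≠ 0) (hm : ∀ a, P a → Nat.card {b // f b = a} = m) (hm0 : m ≠ 0) :
    Nat.card {p : β // P (f p)} = n * m := by
  rw [Nat.card_congr (nf_e f P)]
  exact MP_a6a2ff_al.card_fib P (fun a b => f b = a) n m hn hn0 hm hm0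

private lemma nf_four [IsAlgClosed k] (h2 : (2 : k) ≠ 0) (c : k) (hc : c ≠ 0) :
    Nat.card {p : k // p ^ 4 = c} = 4 := by
  have e : Nat.card {p : k // p ^ 4 = c} = Nat.card {p : k // (p ^ 2) ^ 2 = c} := by
    congr 1
    apply congrArg Subtype
    funext p
    rw [← pow_mul]
  rw [e]
  refine nf_fib (fun p : k => p ^ 2) (fun w => w ^ 2 = c) 2 2 (MP_a6a2ff_al.card_sqrt h2 c hc) (by norm_num)
    (fun w hw => MP_a6a2ff_al.card_sqrt h2 w ?_) (by norm_num)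
  rintro rfl
  exact hc (by rw [← hw]; ring)

private lemma nf_S [IsAlgClosed k] {i : k} (hi : i * i = -1) (h2 : (2 : k) ≠ 0) :
    Nat.card {s : k // s ^ 4 - 2 * i * s ^ 2 + 1 = 0} = 4 := by
  have e : Nat.card {s : k // s ^ 4 - 2 * i * s ^ 2 + 1 = 0} =
      Nat.card {s : k // (s ^ 2) ^ 2 - ((2 + 2 * i) - 2) * s ^ 2 + 1 = 0} := by
    congr 1
    apply congrArg Subtype
    funext s
    have : s ^ 4 - 2 * i * s ^ 2 + 1 = (s ^ 2) ^ 2 - ((2 + 2 * i) - 2) * s ^ 2 + 1 := by ring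
    rw [this]
  rw [e]
  refine nf_fib (fun s : k => s ^ 2) (fun w => w ^ 2 - ((2 + 2 * i) - 2) * w + 1 = 0) 2 2
    (MP_a6a2ff_al.card_quad h2 (2 + 2 * i) ?_ ?_) (by norm_num) (fun w hw => MP_a6a2ff_al.card_sqrt h2 w ?_)
    (by norm_num)
  · intro h
    have h3 : (2 : k) * 2 = 0 := by linear_combination (1 - i) * h + 2 * hi
    exact h2 (by simpa using h3)
  · intro h
    have h3 : (2 : k) * 2 = 0 := by linear_combination (-1 - i) * h + 2 * hi
    exact h2 (by simpa using h3)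
  · rintro rfl
    apply one_ne_zero (α := k)
    linear_combination hw

private lemma nf_Y [IsAlgClosed k] {i : k} (hi : i * i = -1) (h2 : (2 : k) ≠ 0) :
    Nat.card {y : k // (y + 1) * (y ^ 2 - (2 + 4 * i) * y + 1) = 0} = 3 := by
  have h4 : (4 : k) ≠ 0 := by
    have : (4 : k) = 2 ^ 2 := by norm_num
    rw [this]
    exact pow_ne_zero 2 h2
  have hi1 : (1 + i) ≠ 0 := by
    intro h
    apply h2
    linear_combination (1 - i) * h + hi
  have hq := MP_a6a2ff_al.card_quad h2 (4 + 4 * i) (by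
    intro h
    exact mul_ne_zero h4 hi1 (by linear_combination h)) (by
    intro h
    exact mul_ne_zero h4 (nc_i0 hi) (by linear_combination h))
  have hq' : Set.ncard {y : k | y ^ 2 - ((4 + 4 * i) - 2) * y + 1 = 0} = 2 := by
    rw [← Nat.card_coe_set_eq]
    exact hq
  have hf : Set.Finite {y : k | y ^ 2 - ((4 + 4 * i) - 2) * y + 1 = 0} :=
    Set.finite_of_ncard_ne_zero (by rw [hq']; norm_num)
  have hs : {y : k | (y + 1) * (y ^ 2 - (2 + 4 * i) * y + 1) = 0} =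
      insert (-1) {y : k | y ^ 2 - ((4 + 4 * i) - 2) * y + 1 = 0} := by
    ext y
    simp only [Set.mem_ofPred_eq, Set.mem_insert_iff, mul_eq_zero]
    constructor
    · rintro (h | h)
      · left
        linear_combination h
      · right
        linear_combination h
    · rintro (h | h)
      · left
        linear_combination h
      · right
        linear_combination h
  change Nat.card ({y : k | (y + 1) * (y ^ 2 - (2 + 4 * i) * y + 1) = 0} : Set k) = 3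
  rw [Nat.card_coe_set_eq, hs, Set.ncard_insert_of_notMem _ hf, hq']
  intro h
  have h : (-1 : k) ^ 2 - ((4 + 4 * i) - 2) * (-1) + 1 = 0 := h
  exact mul_ne_zero h4 hi1 (by linear_combination h)

private lemma nf_P [IsAlgClosed k] {i : k} (hi : i * i = -1) (h2 : (2 : k) ≠ 0) :
    Nat.card {p : k // (p ^ 4 + 1) * ((p ^ 4) ^ 2 - (2 + 4 * i) * p ^ 4 + 1) = 0} = 12 := by
  refine nf_fib (fun p : k => p ^ 4) (fun w => (w + 1) * (w ^ 2 - (2 + 4 * i) * w + 1) = 0) 3 4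
    (nf_Y hi h2) (by norm_num) (fun w hw => nf_four h2 w ?_) (by norm_num)
  rintro rfl
  simp at hw

lemma card_Idx19 [IsAlgClosed k] {i : k} (hi : i * i = -1) (h2 : (2 : k) ≠ 0) :
    Nat.card (Idx19 i) = 19 := by
  have h1 := nf_S hi h2
  have h3 := nf_P hi h2
  have f1 : Finite {s : k // s ^ 4 - 2 * i * s ^ 2 + 1 = 0} :=
    Nat.finite_of_card_ne_zero (by rw [h1]; norm_num)
  have f3 : Finite {p : k // (p ^ 4 + 1) * ((p ^ 4) ^ 2 - (2 + 4 * i) * p ^ 4 + 1) = 0} :=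
    Nat.finite_of_card_ne_zero (by rw [h3]; norm_num)
  show Nat.card (Fin 3 ⊕ ({s : k // s ^ 4 - 2 * i * s ^ 2 + 1 = 0} ⊕
    {p : k // (p ^ 4 + 1) * ((p ^ 4) ^ 2 - (2 + 4 * i) * p ^ 4 + 1) = 0})) = 19
  rw [Nat.card_sum, Nat.card_sum, h1, h3, Nat.card_eq_fintype_card, Fintype.card_fin]
/- END nf -/

end Pool.Agent.Gsc
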