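import Pool.Agent.Gsc.Def

/-!
# The algebra with two point modules: points
-/

set_option linter.unusedSimpArgs false
set_option linter.unusedVariables false

universe u

namespace Pool.Agent.Gsc

variable {k : Type u} [Field k]

/-- the relations of the algebra with two point modules (`i` is a square root of `-1`) -/
def r2 (i : k) : Fin 6 → Fin 4 → Fin 4 → k :=
  ![![![1, 0, 0, -2], ![0, 0, 0, 0], ![0, 0, 0, 0], ![-2, 0, 0, 5 - 2 * i]],
    ![![0, 0, 0, 0], ![0, 1, 2, 0], ![0, 2, 5 + 2 * i, 0], ![0, 0, 0, 0]],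
    ![![0, 0, 1, 0], ![0, 0, 0, -1], ![1, 0, -1 + 2 * i, 0], ![0, -1, 0, 1 + 2 * i]],
    ![![0, 0, 0, 1], ![0, 0, 0, 0], ![0, 0, 0, -1], ![1, 0, -1, -2 - 2 * i]],
    ![![0, 0, 0, 0], ![0, 0, 1, 0], ![0, 1, 2 - 2 * i, -1], ![0, 0, -1, 0]],
    ![![0, 0, 0, 0], ![0, 0, 0, 0], ![0, 0, 1, 0], ![0, 0, 0, -1]]]

/-- the two points -/
def pt2 (k : Type u) [Field k] : Fin 2 → Fin 4 → k := ![![1, 0, 0, 0], ![0, 1, 0, 0]]

/-- the automorphism of the two points -/
def sig2 : Fin 2 → Fin 2 := ![1, 0]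

/-- the equations of a pair of points -/
structure Eq2 (i : k) (a b : Fin 4 → k) : Prop where
  e0 : a 0 * b 0 - 2 * (a 0 * b 3 + a 3 * b 0) + (5 - 2 * i) * (a 3 * b 3) = 0
  e1 : a 1 * b 1 + 2 * (a 1 * b 2 + a 2 * b 1) + (5 + 2 * i) * (a 2 * b 2) = 0
  e2 : a 0 * b 2 + a 2 * b 0 - (a 1 * b 3 + a 3 * b 1) + (-1 + 2 * i) * (a 2 * b 2) +
    (1 + 2 * i) * (a 3 * b 3) = 0
  e3 : a 0 * b 3 + a 3 * b 0 - (a 2 * b 3 + a 3 * b 2) - (2 + 2 * i) * (a 3 * b 3) = 0
  e4 : a 1 * b 2 + a 2 * b 1 - (a 2 * b 3 + a 3 * b 2) + (2 - 2 * i) * (a 2 * b 2) = 0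
  e5 : a 2 * b 2 - a 3 * b 3 = 0

/- MODULE ta -/
lemma gam_r2_iff (i : k) (a b : Fin 4 → k) : Gam (r2 i) a b ↔ Eq2 i a b := by
  constructor
  · intro h
    have h0 := h 0
    have h1 := h 1
    have h2 := h 2
    have h3 := h 3
    have h4 := h 4
    have h5 := h 5
    simp [r2, Fin.sum_univ_four] at h0 h1 h2 h3 h4 h5
    exact ⟨by linear_combination h0, by linear_combination h1, by linear_combination h2,
      by linear_combination h3, by linear_combination h4, by linear_combination h5⟩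
  · rintro ⟨e0, e1, e2, e3, e4, e5⟩ l
    fin_cases l
    · simp [r2, Fin.sum_univ_four]; linear_combination e0
    · simp [r2, Fin.sum_univ_four]; linear_combination e1
    · simp [r2, Fin.sum_univ_four]; linear_combination e2
    · simp [r2, Fin.sum_univ_four]; linear_combination e3
    · simp [r2, Fin.sum_univ_four]; linear_combination e4
    · simp [r2, Fin.sum_univ_four]; linear_combination e5

private lemma ta_scale {a c : k} (h : c ≠ 0) : ∃ t, a = t * c := ⟨a / c, by field_simp⟩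

private lemma ta_norm {i A0 A1 u B0 B1 v : k} (hi : i * i = -1) (h2 : (2 : k) ≠ 0)
    (huv : u * v = 1)
    (e0 : A0 * B0 - 2 * (A0 * v + u * B0) + (5 - 2 * i) * (u * v) = 0)
    (e1 : A1 * B1 + 2 * (A1 + B1) + (5 + 2 * i) = 0)
    (e2 : A0 + B0 - (A1 * v + u * B1) + (-1 + 2 * i) + (1 + 2 * i) * (u * v) = 0)
    (e3 : A0 * v + u * B0 - (v + u) - (2 + 2 * i) * (u * v) = 0)
    (e4 : A1 + B1 - (v + u) + (2 - 2 * i) = 0) : False := by
  have hf : ∀ α β : k, (α * v + β * u) ^ 2 - (u + v) * (α * v + β * u) * (α + β) + (α + β) ^ 2 +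
      ((u + v) ^ 2 - 4) * (α * β) = 0 := by
    intro α β
    linear_combination -(α - β) ^ 2 * huv
  have k3 : A0 * v + B0 * u = u + v + 2 + 2 * i := by
    linear_combination e3 + (2 + 2 * i) * huv
  have k0 : A0 * B0 = 2 * (u + v) - 1 + 6 * i := by
    linear_combination e0 + 2 * k3 - (5 - 2 * i) * huv
  have k4 : A1 + B1 = u + v - 2 + 2 * i := by linear_combination e4
  have k1 : A1 * B1 = -(2 * (u + v) + 1 + 6 * i) := by linear_combination e1 - 2 * k4
  have k2 : A1 * v + B1 * u = A0 + B0 + 4 * i := by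
    linear_combination -e2 + (1 + 2 * i) * huv
  have E1 := hf A0 B0
  have E2 := hf A1 B1
  rw [k3, k0] at E1
  rw [k2, k1, k4] at E2
  generalize A0 + B0 = s at E1 E2
  generalize u + v = p at E1 E2
  have h4 : (4 : k) ≠ 0 := by
    have : (4 : k) = 2 * 2 := by norm_num
    rw [this]
    exact mul_ne_zero h2 h2
  have D : (p + 2 * i) * s - ((p + 2 * i) ^ 3 - 2 * i * (p + 2 * i) ^ 2 - 2 * i * (p + 2 * i) -
      8 * i) = 0 := by
    apply mul_left_cancel₀ h4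
    linear_combination -E1 + E2 - 8 * p * hi
  have h64 : (2 : k) ^ 6 = 0 := by
    linear_combination -(p + 2 * i) ^ 2 * E1 + (-(p + 2 * i) * (p * (p + 2 + 2 * i)) +
      (p + 2 * i) * s + ((p + 2 * i) ^ 3 - 2 * i * (p + 2 * i) ^ 2 - 2 * i * (p + 2 * i) -
      8 * i)) * D + (64 + 32 * i * p + (-16) * i * p^2 + 32 * i^2 + (-16) * i^2 * p + 8 * p^2 +
      (-4) * p^3) * hi
  exact pow_ne_zero 6 h2 h64

/-- no solutions with `a 3 * b 3 ≠ 0` -/
lemma Eq2.mul_eq_zero {i : k} (hi : i * i = -1) (h2 : (2 : k) ≠ 0) {a b : Fin 4 → k}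
    (h : Eq2 i a b) : a 3 * b 3 = 0 := by
  by_contra h3
  obtain ⟨e0, e1, e2, e3, e4, e5⟩ := h
  have w : a 2 * b 2 = a 3 * b 3 := by linear_combination e5
  have h22 : a 2 * b 2 ≠ 0 := by rw [w]; exact h3
  have a2 : a 2 ≠ 0 := left_ne_zero_of_mul h22
  have b2 : b 2 ≠ 0 := right_ne_zero_of_mul h22
  obtain ⟨A0, hA0⟩ := ta_scale (a := a 0) a2
  obtain ⟨A1, hA1⟩ := ta_scale (a := a 1) a2
  obtain ⟨u, hu⟩ := ta_scale (a := a 3) a2
  obtain ⟨B0, hB0⟩ := ta_scale (a := b 0) b2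
  obtain ⟨B1, hB1⟩ := ta_scale (a := b 1) b2
  obtain ⟨v, hv⟩ := ta_scale (a := b 3) b2
  rw [hA0, hB0, hu, hv] at e0
  rw [hA1, hB1] at e1
  rw [hA0, hB0, hA1, hB1, hu, hv] at e2
  rw [hA0, hB0, hu, hv] at e3
  rw [hA1, hB1, hu, hv] at e4
  rw [hu, hv] at w
  refine ta_norm (A0 := A0) (A1 := A1) (u := u) (B0 := B0) (B1 := B1) (v := v) hi h2
    ?_ ?_ ?_ ?_ ?_ ?_
  · apply mul_right_cancel₀ h22
    linear_combination -w
  · apply mul_right_cancel₀ h22
    linear_combination e0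
  · apply mul_right_cancel₀ h22
    linear_combination e1
  · apply mul_right_cancel₀ h22
    linear_combination e2
  · apply mul_right_cancel₀ h22
    linear_combination e3
  · apply mul_right_cancel₀ h22
    linear_combination e4
/- END ta -/

/- MODULE tb -/
private lemma tb_zero {a0 a1 a2 a3 : k} {a : Fin 4 → k} (h0 : a 0 = a0) (h1 : a 1 = 0)
    (h2 : a 2 = 0) (h3 : a 3 = 0) : a = a 0 • pt2 k 0 := by
  funext s
  fin_cases s <;> simp [pt2, h1, h2, h3]

private lemma tb_one {a0 a1 a2 a3 : k} {a : Fin 4 → k} (h0 : a 0 = 0) (h1 : a 1 = a1)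
    (h2 : a 2 = 0) (h3 : a 3 = 0) : a = a 1 • pt2 k 1 := by
  funext s
  fin_cases s <;> simp [pt2, h0, h2, h3]

private lemma tb_ne0 {a : Fin 4 → k} (ha : a ≠ 0) (h1 : a 1 = 0)
    (h2 : a 2 = 0) (h3 : a 3 = 0) : a 0 ≠ 0 := by
  intro h0
  apply ha
  funext s
  fin_cases s <;> simp [h0, h1, h2, h3]

private lemma tb_ne1 {a : Fin 4 → k} (ha : a ≠ 0) (h0 : a 0 = 0)
    (h2 : a 2 = 0) (h3 : a 3 = 0) : a 1 ≠ 0 := by
  intro h1
  apply ha
  funext s
  fin_cases s <;> simp [h0, h1, h2, h3]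

private lemma tb_fin {a b : Fin 4 → k} (ha : a ≠ 0) (hb : b ≠ 0)
    (h : (a 1 = 0 ∧ a 2 = 0 ∧ a 3 = 0 ∧ b 0 = 0 ∧ b 2 = 0 ∧ b 3 = 0) ∨
      (a 0 = 0 ∧ a 2 = 0 ∧ a 3 = 0 ∧ b 1 = 0 ∧ b 2 = 0 ∧ b 3 = 0)) :
    ∃ (j : Fin 2) (c e : k), c ≠ 0 ∧ e ≠ 0 ∧ a = c • pt2 k j ∧ b = e • pt2 k (sig2 j) := by
  rcases h with ⟨a1, a2, a3, b0, b2, b3⟩ | ⟨a0, a2, a3, b1, b2, b3⟩
  · exact ⟨0, a 0, b 1, tb_ne0 ha a1 a2 a3, tb_ne1 hb b0 b2 b3,
      tb_zero (a0 := a 0) (a1 := 0) (a2 := 0) (a3 := 0) rfl a1 a2 a3,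
      tb_one (a0 := 0) (a1 := b 1) (a2 := 0) (a3 := 0) b0 rfl b2 b3⟩
  · exact ⟨1, a 1, b 0, tb_ne1 ha a0 a2 a3, tb_ne0 hb b1 b2 b3,
      tb_one (a0 := 0) (a1 := a 1) (a2 := 0) (a3 := 0) a0 rfl a2 a3,
      tb_zero (a0 := b 0) (a1 := 0) (a2 := 0) (a3 := 0) rfl b1 b2 b3⟩

lemma Eq2.classify {i : k} (h2 : (2 : k) ≠ 0) {a b : Fin 4 → k} (ha : a ≠ 0) (hb : b ≠ 0)
    (h : Eq2 i a b) (h3 : a 3 * b 3 = 0) :
    ∃ (j : Fin 2) (c e : k), c ≠ 0 ∧ e ≠ 0 ∧ a = c • pt2 k j ∧ b = e • pt2 k (sig2 j) := by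
  obtain ⟨e0, e1, e2, e3, e4, e5⟩ := h
  have h22 : a 2 * b 2 = 0 := by linear_combination e5 + h3
  have h4 : (4 : k) ≠ 0 := by
    have : (4 : k) = 2 * 2 := by norm_num
    rw [this]
    exact mul_ne_zero h2 h2
  have f3 : a 0 * b 3 + a 3 * b 0 = a 2 * b 3 + a 3 * b 2 := by
    linear_combination e3 + (2 + 2 * i) * h3
  have f4 : a 1 * b 2 + a 2 * b 1 = a 2 * b 3 + a 3 * b 2 := by
    linear_combination e4 - (2 - 2 * i) * h22
  have f0 : a 0 * b 0 = 2 * (a 2 * b 3 + a 3 * b 2) := by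
    linear_combination e0 + 2 * f3 - (5 - 2 * i) * h3
  have f1 : a 1 * b 1 = -2 * (a 2 * b 3 + a 3 * b 2) := by
    linear_combination e1 - 2 * f4 - (5 + 2 * i) * h22
  have f2 : a 0 * b 2 + a 2 * b 0 = a 1 * b 3 + a 3 * b 1 := by
    linear_combination e2 - (-1 + 2 * i) * h22 - (1 + 2 * i) * h3
  clear e0 e1 e2 e3 e4 e5
  -- the case `b 2 = b 3 = 0`
  have caseB : b 2 = 0 → b 3 = 0 → ∃ (j : Fin 2) (c e : k), c ≠ 0 ∧ e ≠ 0 ∧ a = c • pt2 k j ∧
      b = e • pt2 k (sig2 j) := by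
    intro q2 q3
    rw [q2, q3] at f0 f1 f2 f3 f4
    simp only [mul_zero, zero_add, add_zero] at f0 f1 f2 f3 f4
    by_cases q0 : b 0 = 0
    · have q1 : b 1 ≠ 0 := tb_ne1 hb q0 q2 q3
      have p1 : a 1 = 0 := (_root_.mul_eq_zero.mp f1).resolve_right q1
      have p2 : a 2 = 0 := (_root_.mul_eq_zero.mp f4).resolve_right q1
      rw [q0, mul_zero] at f2
      have p3 : a 3 = 0 := (_root_.mul_eq_zero.mp f2.symm).resolve_right q1
      exact tb_fin ha hb (Or.inl ⟨p1, p2, p3, q0, q2, q3⟩)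
    · have p0 : a 0 = 0 := (_root_.mul_eq_zero.mp f0).resolve_right q0
      have p3 : a 3 = 0 := (_root_.mul_eq_zero.mp f3).resolve_right q0
      rw [p3, zero_mul] at f2
      have p2 : a 2 = 0 := (_root_.mul_eq_zero.mp f2).resolve_right q0
      have p1 : a 1 ≠ 0 := tb_ne1 ha p0 p2 p3
      have q1 : b 1 = 0 := (_root_.mul_eq_zero.mp f1).resolve_left p1
      exact tb_fin ha hb (Or.inr ⟨p0, p2, p3, q1, q2, q3⟩)
  by_cases p2 : a 2 = 0
  · by_cases p3 : a 3 = 0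
    · rw [p2, p3] at f0 f1 f2 f3 f4
      simp only [mul_zero, zero_mul, zero_add, add_zero] at f0 f1 f2 f3 f4
      by_cases p0 : a 0 = 0
      · have p1 : a 1 ≠ 0 := tb_ne1 ha p0 p2 p3
        have q1 : b 1 = 0 := (_root_.mul_eq_zero.mp f1).resolve_left p1
        have q2 : b 2 = 0 := (_root_.mul_eq_zero.mp f4).resolve_left p1
        rw [p0, zero_mul] at f2
        have q3 : b 3 = 0 := (_root_.mul_eq_zero.mp f2.symm).resolve_left p1
        exact tb_fin ha hb (Or.inr ⟨p0, p2, p3, q1, q2, q3⟩)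
      · have q0 : b 0 = 0 := (_root_.mul_eq_zero.mp f0).resolve_left p0
        have q3 : b 3 = 0 := (_root_.mul_eq_zero.mp f3).resolve_left p0
        rw [q3, mul_zero] at f2
        have q2 : b 2 = 0 := (_root_.mul_eq_zero.mp f2).resolve_left p0
        have q1 : b 1 ≠ 0 := tb_ne1 hb q0 q2 q3
        have p1 : a 1 = 0 := (_root_.mul_eq_zero.mp f1).resolve_right q1
        exact tb_fin ha hb (Or.inl ⟨p1, p2, p3, q0, q2, q3⟩)
    · have q3 : b 3 = 0 := (_root_.mul_eq_zero.mp h3).resolve_left p3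
      by_cases q2 : b 2 = 0
      · exact caseB q2 q3
      · exfalso
        rw [p2, q3] at f0 f1 f2 f3 f4
        simp only [mul_zero, zero_mul, zero_add, add_zero] at f0 f1 f2 f3 f4
        have g0 : b 0 = b 2 := mul_left_cancel₀ p3 f3
        have g1 : a 1 = a 3 := mul_right_cancel₀ q2 f4
        have g2 : a 0 = 2 * a 3 := by
          apply mul_right_cancel₀ q2
          rw [g0] at f0
          linear_combination f0
        have g3 : b 1 = -2 * b 2 := by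
          apply mul_left_cancel₀ p3
          rw [g1] at f1
          linear_combination f1
        have : 4 * (a 3 * b 2) = 0 := by
          rw [g2, g3] at f2
          linear_combination f2
        exact mul_ne_zero h4 (mul_ne_zero p3 q2) this
  · have q2 : b 2 = 0 := (_root_.mul_eq_zero.mp h22).resolve_left p2
    by_cases q3 : b 3 = 0
    · exact caseB q2 q3
    · exfalso
      have p3 : a 3 = 0 := (_root_.mul_eq_zero.mp h3).resolve_right q3
      rw [p3, q2] at f0 f1 f2 f3 f4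
      simp only [mul_zero, zero_mul, zero_add, add_zero] at f0 f1 f2 f3 f4
      have g1 : b 1 = b 3 := mul_left_cancel₀ p2 f4
      have g0 : a 0 = a 2 := mul_right_cancel₀ q3 f3
      have g2 : b 0 = 2 * b 3 := by
        apply mul_left_cancel₀ p2
        rw [g0] at f0
        linear_combination f0
      have g3 : a 1 = -2 * a 2 := by
        apply mul_right_cancel₀ q3
        rw [g1] at f1
        linear_combination f1
      have : 4 * (a 2 * b 3) = 0 := by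
        rw [g2, g3] at f2
        linear_combination f2
      exact mul_ne_zero h4 (mul_ne_zero p2 q3) this

lemma gam_pt2 (i : k) (j : Fin 2) : Gam (r2 i) (pt2 k j) (pt2 k (sig2 j)) := by
  rw [gam_r2_iff]
  fin_cases j <;> constructor <;> simp [pt2, sig2]

lemma pt2_ne_zero (j : Fin 2) : pt2 k j ≠ 0 := by
  fin_cases j
  · intro h
    have := congrFun h 0
    simp [pt2] at this
  · intro h
    have := congrFun h 1
    simp [pt2] at this

lemma pt2_inj (j l : Fin 2) (c : k) (h : pt2 k j = c • pt2 k l) : j = l := by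
  fin_cases j <;> fin_cases l
  · rfl
  · exfalso
    have := congrFun h 0
    simp [pt2] at this
  · exfalso
    have := congrFun h 1
    simp [pt2] at this
  · rfl
/- END tb -/

end Pool.Agent.Gsc
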