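import Mathlib

/-!
# Quadratic algebras with four generators and six relations: presentation and grading
-/

set_option linter.unusedSimpArgs false
set_option linter.unusedVariables false

universe u

open DirectSum

namespace Pool.Agent.Gsc

/-- The relations `∑ r l s t x_s x_t = 0`. -/
def Rels {k R : Type*} [CommRing k] [Ring R] [Algebra k R] (r : Fin 6 → Fin 4 → Fin 4 → k)
    (x : Fin 4 → R) : Prop :=
  ∀ l, ∑ s, ∑ t, r l s t • (x s * x t) = 0

/-- `R` is presented by the generators `x` and the relations `r`. -/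
structure IsPres (k : Type u) [Field k] (R : Type u) [Ring R] [Algebra k R]
    (r : Fin 6 → Fin 4 → Fin 4 → k) (x : Fin 4 → R) : Prop where
  rel : Rels r x
  gen : Algebra.adjoin k (Set.range x) = ⊤
  univ : ∀ (S : Type u) [Ring S] [Algebra k S] (x' : Fin 4 → S), Rels r x' →
    ∃ φ : R →ₐ[k] S, ∀ s, φ (x s) = x' s

section Existence

variable (k : Type u) [Field k] (r : Fin 6 → Fin 4 → Fin 4 → k)

/-- the relations on the free algebra -/
inductive FreeRel : FreeAlgebra k (Fin 4) → FreeAlgebra k (Fin 4) → Prop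
  | rel (l : Fin 6) : FreeRel (∑ s, ∑ t, r l s t • (FreeAlgebra.ι k s * FreeAlgebra.ι k t)) 0

theorem exists_isPres : ∃ (R : Type u) (_ : Ring R) (_ : Algebra k R) (x : Fin 4 → R),
    IsPres k R r x := by
  let π := RingQuot.mkAlgHom k (FreeRel k r)
  refine ⟨RingQuot (FreeRel k r), inferInstance, inferInstance,
    fun s => π (FreeAlgebra.ι k s), ?_, ?_, ?_⟩
  · intro l
    have key := RingQuot.mkAlgHom_rel k (FreeRel.rel (k := k) (r := r) l)
    simpa using key
  · have hs : Function.Surjective π := RingQuot.mkAlgHom_surjective k _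
    have h1 : Algebra.adjoin k (Set.range (FreeAlgebra.ι k : Fin 4 → _)) = ⊤ :=
      FreeAlgebra.adjoin_range_ι k (Fin 4)
    have h2 := congrArg (Subalgebra.map π) h1
    rw [Algebra.map_top, (AlgHom.range_eq_top π).mpr hs, AlgHom.map_adjoin] at h2
    rw [← h2]
    congr 1
    rw [← Set.range_comp]
    rfl
  · intro S _ _ x' h
    let f : FreeAlgebra k (Fin 4) →ₐ[k] S := FreeAlgebra.lift k x'
    have hf : ∀ ⦃a b⦄, FreeRel k r a b → f a = f b := by
      intro a b hab
      cases hab with
      | rel l => simpa [f] using h l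
    refine ⟨RingQuot.liftAlgHom k ⟨f, hf⟩, fun s => ?_⟩
    change RingQuot.liftAlgHom k ⟨f, hf⟩ (RingQuot.mkAlgHom k (FreeRel k r) _) = _
    rw [RingQuot.liftAlgHom_mkAlgHom_apply]
    simp [f]

end Existence

variable {k : Type u} [Field k] {R : Type u} [Ring R] [Algebra k R]
  {r : Fin 6 → Fin 4 → Fin 4 → k} {x : Fin 4 → R}

/-- The opposite algebra satisfies the same relations for the generators permuted by `τ`. -/
lemma Rels.op (h : Rels r x) (τ : Fin 4 → Fin 4) (hτ : ∀ s, τ (τ s) = s)
    (W : Fin 6 → Fin 6 → k) (hW : ∀ l s t, r l (τ s) (τ t) = ∑ l', W l l' * r l' t s) :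
    Rels r (fun s => MulOpposite.op (x (τ s))) := by
  intro l
  let e : Fin 4 ≃ Fin 4 := ⟨τ, τ, hτ, hτ⟩
  have h1 : ∑ s, ∑ t, r l s t • (MulOpposite.op (x (τ s)) * MulOpposite.op (x (τ t))) =
      ∑ s, ∑ t, r l (τ s) (τ t) • (MulOpposite.op (x s) * MulOpposite.op (x t)) := by
    rw [← e.sum_comp]
    refine Finset.sum_congr rfl fun s _ => ?_
    rw [← e.sum_comp]
    refine Finset.sum_congr rfl fun t _ => ?_
    change r l (τ s) (τ t) • (MulOpposite.op (x (τ (τ s))) * MulOpposite.op (x (τ (τ t)))) = _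
    rw [hτ, hτ]
  rw [h1]
  have h2 : ∑ s, ∑ t, r l (τ s) (τ t) • (MulOpposite.op (x s) * MulOpposite.op (x t)) =
      ∑ l', W l l' • MulOpposite.op (∑ s, ∑ t, r l' s t • (x s * x t)) := by
    simp only [hW, Finset.sum_smul, Finset.smul_sum, Finset.op_sum, MulOpposite.op_smul,
      MulOpposite.op_mul, mul_smul]
    rw [Finset.sum_congr rfl fun s _ => Finset.sum_comm, Finset.sum_comm]
    exact Finset.sum_congr rfl fun l' _ => Finset.sum_comm
  rw [h2]
  refine Finset.sum_eq_zero fun l' _ => ?_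
  rw [h l', MulOpposite.op_zero, smul_zero]

theorem IsPres.op (h : IsPres k R r x) (τ : Fin 4 → Fin 4) (hτ : ∀ s, τ (τ s) = s)
    (W : Fin 6 → Fin 6 → k) (hW : ∀ l s t, r l (τ s) (τ t) = ∑ l', W l l' * r l' t s) :
    IsPres k Rᵐᵒᵖ r (fun s => MulOpposite.op (x (τ s))) := by
  refine ⟨h.rel.op τ hτ W hW, ?_, ?_⟩
  · have h1 := congrArg Subalgebra.op h.gen
    rw [Subalgebra.op_adjoin, Subalgebra.op_top] at h1
    rw [← h1]
    congr 1
    ext a
    constructor
    · rintro ⟨s, rfl⟩
      exact ⟨τ s, rfl⟩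
    · rintro ⟨s, hs⟩
      refine ⟨τ s, ?_⟩
      dsimp only
      rw [hτ, hs]
      rfl
  · intro S _ _ x' h'
    obtain ⟨φ, e⟩ := h.univ Sᵐᵒᵖ _ (h'.op τ hτ W hW)
    refine ⟨AlgHom.opComm φ, fun s => ?_⟩
    simp [e, hτ]

/-! ### The grading -/

/-- the space of linear forms -/
def genSpan (k : Type u) [Field k] {R : Type u} [Ring R] [Algebra k R] (x : Fin 4 → R) :
    Submodule k R := Submodule.span k (Set.range x)

/-- the grading by powers of the space of linear forms -/
def powGrading (k : Type u) [Field k] {R : Type u} [Ring R] [Algebra k R] (x : Fin 4 → R) :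
    ℕ → Submodule k R := fun n => genSpan k x ^ n

instance : SetLike.GradedMonoid (powGrading k x) :=
  Submodule.nat_power_gradedMonoid (genSpan k x)

lemma mem_one_of_mem {v : R} (hv : v ∈ genSpan k x) : v ∈ powGrading k x 1 := by
  simpa [powGrading] using hv

lemma x_mem (s : Fin 4) : x s ∈ genSpan k x := Submodule.subset_span ⟨s, rfl⟩

/-- the inclusion of linear forms into the direct sum -/
def degOne (k : Type u) [Field k] {R : Type u} [Ring R] [Algebra k R] (x : Fin 4 → R) :
    genSpan k x →ₗ[k] ⨁ i, powGrading k x i :=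
  DirectSum.lof k ℕ (fun i => powGrading k x i) 1 ∘ₗ
    (Submodule.inclusion (le_of_eq (pow_one (genSpan k x)).symm))

lemma coe_degOne (v : genSpan k x) :
    DirectSum.coeAlgHom (powGrading k x) (degOne k x v) = v := by
  unfold degOne
  rw [LinearMap.comp_apply, DirectSum.lof_eq_of, DirectSum.coeAlgHom_of]
  rfl

lemma degOne_mul_mem (v w : genSpan k x) :
    degOne k x v * degOne k x w ∈
      LinearMap.range (DirectSum.lof k ℕ (fun i => powGrading k x i) 2) := by
  unfold degOne
  simp only [LinearMap.comp_apply, DirectSum.lof_eq_of, DirectSum.of_mul_of]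
  exact ⟨_, rfl⟩

lemma eq_of_mem_lof {n : ℕ} {s t : ⨁ i, powGrading k x i}
    (hs : s ∈ LinearMap.range (DirectSum.lof k ℕ (fun i => powGrading k x i) n))
    (ht : t ∈ LinearMap.range (DirectSum.lof k ℕ (fun i => powGrading k x i) n))
    (h0 : DirectSum.coeAlgHom (powGrading k x) s =
      DirectSum.coeAlgHom (powGrading k x) t) : s = t := by
  obtain ⟨s, rfl⟩ := hs
  obtain ⟨t, rfl⟩ := ht
  rw [DirectSum.lof_eq_of, DirectSum.lof_eq_of, DirectSum.coeAlgHom_of,
    DirectSum.coeAlgHom_of] at h0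
  rw [Subtype.ext (a1 := s) (a2 := t) h0]

lemma Rels.degOne (h : Rels r x) :
    Rels r (fun s => Gsc.degOne k x ⟨x s, x_mem s⟩) := by
  intro l
  refine eq_of_mem_lof (n := 2) ?_ (zero_mem _) ?_
  · exact sum_mem fun s _ => sum_mem fun t _ => Submodule.smul_mem _ _ (degOne_mul_mem _ _)
  · simp only [map_sum, map_mul, map_smul, coe_degOne, map_zero]
    exact h l

/-- the algebra map to the direct sum of homogeneous components -/
lemma IsPres.exists_decompose (h : IsPres k R r x) :
    ∃ φ : R →ₐ[k] ⨁ i, powGrading k x i,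
      ∀ v : genSpan k x, φ v = Gsc.degOne k x v := by
  obtain ⟨φ, e⟩ := h.univ _ _ h.rel.degOne
  refine ⟨φ, ?_⟩
  rintro ⟨v, hv⟩
  unfold genSpan at hv
  induction hv using Submodule.span_induction with
  | mem z hz =>
    obtain ⟨s, rfl⟩ := hz
    exact e s
  | zero =>
    have : (⟨0, zero_mem _⟩ : genSpan k x) = 0 := rfl
    simp [this]
  | add a b ha hb iha ihb =>
    have : (⟨a + b, add_mem ha hb⟩ : genSpan k x) = ⟨a, ha⟩ + ⟨b, hb⟩ := rfl
    rw [this, map_add, ← iha, ← ihb, ← map_add]
    rfl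
  | smul c a ha iha =>
    have : (⟨c • a, Submodule.smul_mem _ c ha⟩ : genSpan k x) = c • ⟨a, ha⟩ := rfl
    rw [this, map_smul, ← iha, ← map_smul]
    rfl

/-- The grading. -/
noncomputable abbrev IsPres.gradedAlgebra (h : IsPres k R r x) :
    GradedAlgebra (powGrading k x) :=
  GradedAlgebra.ofAlgHom _ h.exists_decompose.choose
    (by
      apply AlgHom.ext_of_adjoin_eq_top h.gen
      rintro a ⟨s, rfl⟩
      rw [AlgHom.comp_apply, AlgHom.id_apply]
      exact (congrArg _ (h.exists_decompose.choose_spec ⟨x s, x_mem s⟩)).trans (coe_degOne _))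
    (fun i z => by
      obtain ⟨z, hz⟩ := z
      change z ∈ genSpan k x ^ i at hz
      induction hz using Submodule.pow_induction_on_left' with
      | algebraMap r =>
        dsimp only
        rw [AlgHom.commutes, DirectSum.algebraMap_apply]; rfl
      | add x y i hx hy ihx ihy =>
        dsimp only at ihx ihy ⊢
        rw [map_add, ihx, ihy, ← map_add]
        rfl
      | mem_mul m hm i x hx ih =>
        dsimp only at ih ⊢
        rw [map_mul, ih, h.exists_decompose.choose_spec ⟨m, hm⟩]
        unfold Gsc.degOne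
        rw [LinearMap.comp_apply, DirectSum.lof_eq_of, DirectSum.of_mul_of]
        exact DirectSum.of_eq_of_gradedMonoid_eq (Sigma.subtype_ext (add_comm _ _) rfl))

end Pool.Agent.Gsc
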