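import Mathlib

/-!
# Graded skew Clifford algebras
-/

universe u

namespace Pool.Agent.Gsc

variable {k : Type u} [Field k]

/-- The defining relations of the graded skew Clifford algebra `A(μ; M)` on the free algebra with
generators `x_i` (`Sum.inl i`) and `y_l` (`Sum.inr l`):
`x_i x_j + μ_ij x_j x_i = ∑ l, (M_l)_ij y_l`. -/
inductive GRel {n : ℕ} (μ : Fin n → Fin n → k) (M : Fin n → Matrix (Fin n) (Fin n) k) :
    FreeAlgebra k (Fin n ⊕ Fin n) → FreeAlgebra k (Fin n ⊕ Fin n) → Prop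
  | rel (i j : Fin n) : GRel μ M
      (FreeAlgebra.ι k (Sum.inl i) * FreeAlgebra.ι k (Sum.inl j) +
        μ i j • (FreeAlgebra.ι k (Sum.inl j) * FreeAlgebra.ι k (Sum.inl i)))
      (∑ l, M l i j • FreeAlgebra.ι k (Sum.inr l))

/-- The image `y` of an element in `A / I` is normal: `yA + I = Ay + I`. -/
def NormalMod {A : Type u} [Ring A] (I : TwoSidedIdeal A) (y : A) : Prop :=
  ∀ a : A, (∃ b, y * a - b * y ∈ I) ∧ (∃ b, a * y - y * b ∈ I)

/-- The graded algebra `(A, 𝒜)` is a graded skew Clifford algebra `A(μ; M_1, …, M_n)`: it is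
isomorphic to the algebra with the relations `GRel μ M`, with the `x_i` in degree one and the
`y_l` in degree two, the matrices `M_l` are `μ`-symmetric, and there is a normalizing sequence
`w_1, …, w_n` which spans `k y_1 + … + k y_n`. -/
def IsGSCA {A : Type u} [Ring A] [Algebra k A] (𝒜 : ℕ → Submodule k A) (n : ℕ) : Prop :=
  ∃ (μ : Fin n → Fin n → k) (M : Fin n → Matrix (Fin n) (Fin n) k)
    (e : RingQuot (GRel μ M) ≃ₐ[k] A) (x y w : Fin n → A),
    (∀ i j, μ i j ≠ 0) ∧ (∀ i j, μ i j * μ j i = 1) ∧ (∀ i, μ i i = 1) ∧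
    (∀ l i j, M l i j = μ i j * M l j i) ∧
    (∀ i, x i = e (RingQuot.mkAlgHom k (GRel μ M) (FreeAlgebra.ι k (Sum.inl i)))) ∧
    (∀ l, y l = e (RingQuot.mkAlgHom k (GRel μ M) (FreeAlgebra.ι k (Sum.inr l)))) ∧
    (∀ i, x i ∈ 𝒜 1) ∧ (∀ l, y l ∈ 𝒜 2) ∧
    Submodule.span k (Set.range w) = Submodule.span k (Set.range y) ∧
    ∀ i, NormalMod (TwoSidedIdeal.span (w '' {j | j < i})) (w i)

/-- the conditions on two successive points of a point module -/
def Gam (r : Fin 6 → Fin 4 → Fin 4 → k) (a b : Fin 4 → k) : Prop :=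
  ∀ l, ∑ s, ∑ t, r l s t * (a s * b t) = 0

end Pool.Agent.Gsc
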