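import Pool.Agent.Gsc.Alg
import Pool.Agent.Gsc.Def

/-!
# From the quadratic presentation to the presentation of a graded skew Clifford algebra
-/

set_option linter.unusedSimpArgs false
set_option linter.unusedVariables false

universe u

namespace Pool.Agent.Gsc

variable {k : Type u} [Field k] {R : Type u} [Ring R] [Algebra k R]
  {r : Fin 6 → Fin 4 → Fin 4 → k} {x : Fin 4 → R}

/- MODULE sa -/
/-- The quadratic algebra with relations `r` is the algebra with the relations `GRel μ M`, if the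
two systems of relations are equivalent. -/
theorem IsPres.exists_equiv (h : IsPres k R r x) (μ : Fin 4 → Fin 4 → k)
    (M : Fin 4 → Matrix (Fin 4) (Fin 4) k) (y : Fin 4 → R) (g : Fin 4 → Fin 4 → Fin 4 → k)
    (hy : ∀ l, y l = ∑ i, ∑ j, g l i j • (x i * x j))
    (h1 : ∀ i j, x i * x j + μ i j • (x j * x i) = ∑ l, M l i j • y l)
    (h2 : ∀ (S : Type u) [Ring S] [Algebra k S] (X Y : Fin 4 → S),
      (∀ i j, X i * X j + μ i j • (X j * X i) = ∑ l, M l i j • Y l) →
        Rels r X ∧ ∀ l, Y l = ∑ i, ∑ j, g l i j • (X i * X j)) :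
    ∃ e : RingQuot (GRel μ M) ≃ₐ[k] R,
      (∀ i, x i = e (RingQuot.mkAlgHom k (GRel μ M) (FreeAlgebra.ι k (Sum.inl i)))) ∧
      (∀ l, y l = e (RingQuot.mkAlgHom k (GRel μ M) (FreeAlgebra.ι k (Sum.inr l)))) := by
  obtain ⟨π, hπ⟩ : ∃ π, π = RingQuot.mkAlgHom k (GRel μ M) := ⟨_, rfl⟩
  -- the relations in the quotient
  have hq := h2 (RingQuot (GRel μ M)) (fun i => π (FreeAlgebra.ι k (Sum.inl i)))
    (fun l => π (FreeAlgebra.ι k (Sum.inr l))) (fun i j => by
      have := RingQuot.mkAlgHom_rel k (GRel.rel (μ := μ) (M := M) i j)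
      rw [← hπ] at this
      simpa using this)
  obtain ⟨hq1, hq2⟩ := hq
  -- the map from the quotient
  let f : FreeAlgebra k (Fin 4 ⊕ Fin 4) →ₐ[k] R := FreeAlgebra.lift k (Sum.elim x y)
  have hf : ∀ ⦃a b⦄, GRel μ M a b → f a = f b := by
    intro a b hab
    cases hab with
    | rel i j => simpa [f] using h1 i j
  let φ : RingQuot (GRel μ M) →ₐ[k] R := RingQuot.liftAlgHom k ⟨f, hf⟩
  have hφ : ∀ a, φ (π a) = f a := by
    intro a
    rw [hπ]
    exact RingQuot.liftAlgHom_mkAlgHom_apply k f hf a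
  have hφx : ∀ i, φ (π (FreeAlgebra.ι k (Sum.inl i))) = x i := fun i => by
    rw [hφ]; simp [f]
  have hφy : ∀ l, φ (π (FreeAlgebra.ι k (Sum.inr l))) = y l := fun l => by
    rw [hφ]; simp [f]
  -- the map to the quotient
  obtain ⟨ψ, hψ⟩ := h.univ _ _ hq1
  have hψy : ∀ l, ψ (y l) = π (FreeAlgebra.ι k (Sum.inr l)) := by
    intro l
    rw [hy l, hq2 l]
    simp only [map_sum, map_smul, map_mul, hψ]
  have e1 : φ.comp ψ = AlgHom.id k R := by
    apply AlgHom.ext_of_adjoin_eq_top h.gen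
    rintro a ⟨s, rfl⟩
    rw [AlgHom.comp_apply, hψ, hφx, AlgHom.id_apply]
  have e2 : ψ.comp φ = AlgHom.id k _ := by
    apply RingQuot.ringQuot_ext' k _ _ _
    apply FreeAlgebra.hom_ext
    funext s
    rcases s with i | l
    · simp only [Function.comp_apply, AlgHom.comp_apply, AlgHom.id_apply, ← hπ]
      rw [hφx, hψ]
    · simp only [Function.comp_apply, AlgHom.comp_apply, AlgHom.id_apply, ← hπ]
      rw [hφy, hψy]
  refine ⟨AlgEquiv.ofAlgHom φ ψ e1 e2, fun i => ?_, fun l => ?_⟩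
  · rw [← hπ, AlgEquiv.ofAlgHom_apply, hφx]
  · rw [← hπ, AlgEquiv.ofAlgHom_apply, hφy]

/- END sa -/

/- MODULE sb -/
/-- A criterion for normality modulo an ideal: it is enough to know the commutation with the
generators up to scalars. -/
theorem IsPres.normalMod (h : IsPres k R r x) (I : TwoSidedIdeal R) (y : R) (c : Fin 4 → k)
    (hc : ∀ s, c s ≠ 0) (hy : ∀ s, y * x s - c s • (x s * y) ∈ I) : NormalMod I y := by
  intro a
  have ha : a ∈ Algebra.adjoin k (Set.range x) := by rw [h.gen]; trivial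
  induction ha using Algebra.adjoin_induction with
  | mem z hz =>
    obtain ⟨s, rfl⟩ := hz
    refine ⟨⟨c s • x s, by rw [smul_mul_assoc]; exact hy s⟩, ⟨(c s)⁻¹ • x s, ?_⟩⟩
    have h1 : x s * y - y * (c s)⁻¹ • x s =
        algebraMap k R (-(c s)⁻¹) * (y * x s - c s • (x s * y)) := by
      rw [← Algebra.smul_def, smul_sub, smul_smul, neg_mul, inv_mul_cancel₀ (hc s),
        mul_smul_comm]
      module
    rw [h1]
    exact I.mul_mem_left _ _ (hy s)
  | algebraMap t =>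
    refine ⟨⟨algebraMap k R t, ?_⟩, ⟨algebraMap k R t, ?_⟩⟩
    · rw [Algebra.commutes, sub_self]; exact I.zero_mem
    · rw [Algebra.commutes, sub_self]; exact I.zero_mem
  | add a b _ _ iha ihb =>
    obtain ⟨⟨a1, ha1⟩, ⟨a2, ha2⟩⟩ := iha
    obtain ⟨⟨b1, hb1⟩, ⟨b2, hb2⟩⟩ := ihb
    refine ⟨⟨a1 + b1, ?_⟩, ⟨a2 + b2, ?_⟩⟩
    · have : y * (a + b) - (a1 + b1) * y = (y * a - a1 * y) + (y * b - b1 * y) := by
        rw [mul_add, add_mul]; abel
      rw [this]
      exact I.add_mem ha1 hb1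
    · have : (a + b) * y - y * (a2 + b2) = (a * y - y * a2) + (b * y - y * b2) := by
        rw [mul_add, add_mul]; abel
      rw [this]
      exact I.add_mem ha2 hb2
  | mul a b _ _ iha ihb =>
    obtain ⟨⟨a1, ha1⟩, ⟨a2, ha2⟩⟩ := iha
    obtain ⟨⟨b1, hb1⟩, ⟨b2, hb2⟩⟩ := ihb
    refine ⟨⟨a1 * b1, ?_⟩, ⟨a2 * b2, ?_⟩⟩
    · have : y * (a * b) - a1 * b1 * y = (y * a - a1 * y) * b + a1 * (y * b - b1 * y) := by
        noncomm_ring
      rw [this]
      exact I.add_mem (I.mul_mem_right _ _ ha1) (I.mul_mem_left _ _ hb1)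
    · have : a * b * y - y * (a2 * b2) = a * (b * y - y * b2) + (a * y - y * a2) * b2 := by
        noncomm_ring
      rw [this]
      exact I.add_mem (I.mul_mem_left _ _ hb2) (I.mul_mem_right _ _ ha2)
/- END sb -/

end Pool.Agent.Gsc
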