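import Pool.Agent.Gsc.Gs
import Pool.Agent.Gsc.NinPt

/-!
# The algebra with nineteen point modules is a graded skew Clifford algebra
-/

set_option linter.unusedSimpArgs false
set_option linter.unusedVariables false

universe u

namespace Pool.Agent.Gsc

variable {k : Type u} [Field k] {R : Type u} [Ring R] [Algebra k R] {x : Fin 4 → R}

/-- the scalars `μ` -/
def mu19 (i : k) : Fin 4 → Fin 4 → k :=
  ![![1, i, 1, -1], ![-i, 1, 1, i], ![1, 1, 1, 1], ![-1, -i, 1, 1]]

/-- the `μ`-symmetric matrices: `x_a x_b + μ_ab x_b x_a = ∑ l, (M19 i l)_ab y_l` with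
`y_0 = x_2^2`, `y_1 = x_0^2 - x_2^2`, `y_2 = x_1^2`, `y_3 = x_1x_2 + x_2x_1` -/
def M19 (i : k) : Fin 4 → Matrix (Fin 4) (Fin 4) k :=
  ![!![2, 0, 2, 0; 0, 0, 0, 0; 2, 0, 2, 2; 0, 0, 2, 2],
    !![2, 0, 1 - i, 0; 0, 0, 0, 0; 1 - i, 0, 0, -1 + i; 0, 0, -1 + i, -2],
    !![0, 0, 0, -2; 0, 2, 0, 0; 0, 0, 0, 0; 2, 0, 0, 0],
    !![0, 0, 0, 0; 0, 0, 1, 0; 0, 1, 0, 0; 0, 0, 0, 0]]

/-- the coefficients of the `y_l` -/
def g19 (k : Type u) [Field k] : Fin 4 → Fin 4 → Fin 4 → k :=
  ![![![0, 0, 0, 0], ![0, 0, 0, 0], ![0, 0, 1, 0], ![0, 0, 0, 0]],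
    ![![1, 0, 0, 0], ![0, 0, 0, 0], ![0, 0, -1, 0], ![0, 0, 0, 0]],
    ![![0, 0, 0, 0], ![0, 1, 0, 0], ![0, 0, 0, 0], ![0, 0, 0, 0]],
    ![![0, 0, 0, 0], ![0, 0, 1, 0], ![0, 1, 0, 0], ![0, 0, 0, 0]]]

/-- the elements `y_l` -/
def y19 (x : Fin 4 → R) : Fin 4 → R :=
  ![x 2 * x 2, x 0 * x 0 - x 2 * x 2, x 1 * x 1, x 1 * x 2 + x 2 * x 1]

/-- the six relations -/
structure Rel19 (i : k) (x : Fin 4 → R) : Prop where
  e0 : x 0 * x 0 + x 3 * x 3 = (2 : k) • (x 2 * x 2)
  e1 : x 0 * x 2 + x 2 * x 0 = (1 - i) • (x 0 * x 0) + (1 + i) • (x 2 * x 2)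
  e2 : x 2 * x 3 + x 3 * x 2 = (1 - i) • (x 3 * x 3) + (1 + i) • (x 2 * x 2)
  e3 : x 0 * x 3 - x 3 * x 0 + (2 : k) • (x 1 * x 1) = 0
  e4 : x 0 * x 1 + i • (x 1 * x 0) = 0
  e5 : x 1 * x 3 + i • (x 3 * x 1) = 0

/- MODULE nga -/
lemma rels_r19_iff (i : k) (x : Fin 4 → R) : Rels (r19 i) x ↔ Rel19 i x := by
  constructor
  · intro h
    have h0 := h 0
    have h1 := h 1
    have h2 := h 2
    have h3 := h 3
    have h4 := h 4
    have h5 := h 5
    simp [r19, Fin.sum_univ_succ] at h0 h1 h2 h3 h4 h5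
    constructor
    · linear_combination (norm := module) h0
    · linear_combination (norm := module) h1
    · linear_combination (norm := module) h2
    · linear_combination (norm := module) h3
    · linear_combination (norm := module) h4
    · linear_combination (norm := module) h5
  · rintro ⟨h0, h1, h2, h3, h4, h5⟩ l
    fin_cases l <;> simp [r19, Fin.sum_univ_succ]
    · linear_combination (norm := module) h0
    · linear_combination (norm := module) h1
    · linear_combination (norm := module) h2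
    · linear_combination (norm := module) h3
    · linear_combination (norm := module) h4
    · linear_combination (norm := module) h5

lemma Rel19.gsca {i : k} (hi : i * i = -1) (h : Rel19 i x) (a b : Fin 4) :
    x a * x b + mu19 i a b • (x b * x a) = ∑ l, M19 i l a b • y19 x l := by
  obtain ⟨h0, h1, h2, h3, h4, h5⟩ := h
  have e4 : (1 + i * i) • (x 1 * x 0) = 0 := by rw [hi]; simp
  have e5 : (1 + i * i) • (x 3 * x 1) = 0 := by rw [hi]; simp
  fin_cases a <;> fin_cases b <;> simp [mu19, M19, y19, Fin.sum_univ_succ]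
  · module
  · linear_combination (norm := module) h4
  · linear_combination (norm := module) h1
  · linear_combination (norm := module) h3
  · linear_combination (norm := module) (-i) • h4 + e4
  · module
  · linear_combination (norm := module) h5
  · linear_combination (norm := module) h1
  · module
  · module
  · linear_combination (norm := module) h2 + (1 - i) • h0
  · linear_combination (norm := module) -h3
  · linear_combination (norm := module) (-i) • h5 + e5
  · linear_combination (norm := module) h2 + (1 - i) • h0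
  · linear_combination (norm := module) (2 : k) • h0

lemma y19_eq (x : Fin 4 → R) (l : Fin 4) : y19 x l = ∑ a, ∑ b, g19 k l a b • (x a * x b) := by
  fin_cases l <;> simp [g19, y19, Fin.sum_univ_succ] <;> module

/-- the relations of the graded skew Clifford algebra imply the six relations -/
lemma rel19_of_gsca {i : k} (h2 : (2 : k) ≠ 0) (X Y : Fin 4 → R)
    (h : ∀ a b, X a * X b + mu19 i a b • (X b * X a) = ∑ l, M19 i l a b • Y l) :
    Rel19 i X ∧ ∀ l, Y l = y19 X l := by
  have h00 := h 0 0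
  have h01 := h 0 1
  have h02 := h 0 2
  have h03 := h 0 3
  have h11 := h 1 1
  have h12 := h 1 2
  have h13 := h 1 3
  have h22 := h 2 2
  have h23 := h 2 3
  have h33 := h 3 3
  simp [mu19, M19, Fin.sum_univ_succ] at h00 h01 h02 h03 h11 h12 h13 h22 h23 h33
  have y0 : Y 0 = X 2 * X 2 := by
    apply smul_right_injective R h2
    dsimp only
    linear_combination (norm := module) -h22
  have y1 : Y 1 = X 0 * X 0 - X 2 * X 2 := by
    apply smul_right_injective R h2
    dsimp only
    linear_combination (norm := module) -h00 + h22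
  have y2 : Y 2 = X 1 * X 1 := by
    apply smul_right_injective R h2
    dsimp only
    linear_combination (norm := module) -h11
  have e0 : X 0 * X 0 + X 3 * X 3 = (2 : k) • (X 2 * X 2) := by
    apply smul_right_injective R h2
    dsimp only
    linear_combination (norm := module) h00 + h33 - (2 : k) • h22
  rw [y0, y1] at h02 h23
  rw [y2] at h03
  refine ⟨⟨e0, ?_, ?_, ?_, h01, h13⟩, fun l => ?_⟩
  · linear_combination (norm := module) h02
  · linear_combination (norm := module) h23 - (1 - i) • e0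
  · linear_combination (norm := module) h03
  · fin_cases l
    · exact y0
    · exact y1
    · exact y2
    · exact h12.symm
/- END nga -/

/-- the commutation factors of the `y_l` with the generators `x_s` -/
def c19 (i : k) : Fin 4 → Fin 4 → k :=
  ![![1, -1, 1, 1], ![1, -1, 1, 1], ![-1, 1, 1, -1], ![-i, 1, 1, i]]

/- MODULE ngb -/
section Ngb

private lemma ngb_A1 {i : k} (hi : i * i = -1) (h : Rel19 i x) :
    x 0 * (x 0 * x 1) = -(x 1 * (x 0 * x 0)) := by
  have e1 := congrArg (x 0 * ·) h.e4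
  have e2 := congrArg (· * x 0) h.e4
  have e3 : (1 + i * i) • (x 1 * (x 0 * x 0)) = 0 := by rw [hi]; simp
  simp only [mul_add, add_mul, mul_smul_comm, smul_mul_assoc, mul_assoc, mul_zero,
    zero_mul] at e1 e2
  linear_combination (norm := module) e1 - i • e2 + e3

private lemma ngb_B1 {i : k} (hi : i * i = -1) (h : Rel19 i x) :
    x 3 * (x 3 * x 1) = -(x 1 * (x 3 * x 3)) := by
  have e1 := congrArg (· * x 3) h.e5
  have e2 := congrArg (x 3 * ·) h.e5
  have e3 : (1 + i * i) • (x 3 * (x 3 * x 1)) = 0 := by rw [hi]; simp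
  simp only [mul_add, add_mul, mul_smul_comm, smul_mul_assoc, mul_assoc, mul_zero,
    zero_mul] at e1 e2
  linear_combination (norm := module) e1 - i • e2 + e3

/-- `x_1^2` anticommutes with `x_0` -/
private lemma ngb_D0 {i : k} (hi : i * i = -1) (h : Rel19 i x) :
    x 0 * (x 1 * x 1) = -(x 1 * (x 1 * x 0)) := by
  have e1 := congrArg (· * x 1) h.e4
  have e2 := congrArg (x 1 * ·) h.e4
  have e3 : (1 + i * i) • (x 1 * (x 1 * x 0)) = 0 := by rw [hi]; simp
  simp only [mul_add, add_mul, mul_smul_comm, smul_mul_assoc, mul_assoc, mul_zero,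
    zero_mul] at e1 e2
  linear_combination (norm := module) e1 - i • e2 + e3

/-- `x_1^2` anticommutes with `x_3` -/
private lemma ngb_D3 {i : k} (hi : i * i = -1) (h : Rel19 i x) :
    x 3 * (x 1 * x 1) = -(x 1 * (x 1 * x 3)) := by
  have e1 := congrArg (x 1 * ·) h.e5
  have e2 := congrArg (· * x 1) h.e5
  have e3 : (1 + i * i) • (x 3 * (x 1 * x 1)) = 0 := by rw [hi]; simp
  simp only [mul_add, add_mul, mul_smul_comm, smul_mul_assoc, mul_assoc, mul_zero,
    zero_mul] at e1 e2
  linear_combination (norm := module) e1 - i • e2 + e3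

private lemma ngb_A3 {i : k} (hi : i * i = -1) (h : Rel19 i x) :
    x 0 * (x 0 * x 3) = x 3 * (x 0 * x 0) := by
  have e1 := congrArg (x 0 * ·) h.e3
  have e2 := congrArg (· * x 0) h.e3
  have e3 := ngb_D0 hi h
  simp only [mul_add, add_mul, mul_sub, sub_mul, mul_smul_comm, smul_mul_assoc, mul_assoc,
    mul_zero, zero_mul] at e1 e2
  linear_combination (norm := module) e1 + e2 - (2 : k) • e3

private lemma ngb_B0 {i : k} (hi : i * i = -1) (h : Rel19 i x) :
    x 3 * (x 3 * x 0) = x 0 * (x 3 * x 3) := by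
  have e1 := congrArg (x 3 * ·) h.e3
  have e2 := congrArg (· * x 3) h.e3
  have e3 := ngb_D3 hi h
  simp only [mul_add, add_mul, mul_sub, sub_mul, mul_smul_comm, smul_mul_assoc, mul_assoc,
    mul_zero, zero_mul] at e1 e2
  linear_combination (norm := module) -e1 - e2 + (2 : k) • e3

private lemma ngb_C0 {i : k} (hi : i * i = -1) (h2 : (2 : k) ≠ 0) (h : Rel19 i x) :
    x 2 * (x 2 * x 0) = x 0 * (x 2 * x 2) := by
  apply smul_right_injective R h2
  dsimp only
  have e1 := congrArg (x 0 * ·) h.e0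
  have e2 := congrArg (· * x 0) h.e0
  have e3 := ngb_B0 hi h
  simp only [mul_add, add_mul, mul_sub, sub_mul, mul_smul_comm, smul_mul_assoc, mul_assoc,
    mul_zero, zero_mul] at e1 e2
  linear_combination (norm := module) e1 - e2 + e3

private lemma ngb_C3 {i : k} (hi : i * i = -1) (h2 : (2 : k) ≠ 0) (h : Rel19 i x) :
    x 2 * (x 2 * x 3) = x 3 * (x 2 * x 2) := by
  apply smul_right_injective R h2
  dsimp only
  have e1 := congrArg (x 3 * ·) h.e0
  have e2 := congrArg (· * x 3) h.e0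
  have e3 := ngb_A3 hi h
  simp only [mul_add, add_mul, mul_sub, sub_mul, mul_smul_comm, smul_mul_assoc, mul_assoc,
    mul_zero, zero_mul] at e1 e2
  linear_combination (norm := module) e1 - e2 + e3

private lemma ngb_C1 {i : k} (hi : i * i = -1) (h2 : (2 : k) ≠ 0) (h : Rel19 i x) :
    x 2 * (x 2 * x 1) = -(x 1 * (x 2 * x 2)) := by
  apply smul_right_injective R h2
  dsimp only
  have e1 := congrArg (x 1 * ·) h.e0
  have e2 := congrArg (· * x 1) h.e0
  have e3 := ngb_A1 hi h
  have e4 := ngb_B1 hi h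
  simp only [mul_add, add_mul, mul_sub, sub_mul, mul_smul_comm, smul_mul_assoc, mul_assoc,
    mul_zero, zero_mul] at e1 e2
  linear_combination (norm := module) -e1 - e2 + e3 + e4

private lemma ngb_A2 {i : k} (hi : i * i = -1) (h2 : (2 : k) ≠ 0) (h : Rel19 i x) :
    x 0 * (x 0 * x 2) = x 2 * (x 0 * x 0) := by
  have e1 := congrArg (x 0 * ·) h.e1
  have e2 := congrArg (· * x 0) h.e1
  have e3 := ngb_C0 hi h2 h
  simp only [mul_add, add_mul, mul_sub, sub_mul, mul_smul_comm, smul_mul_assoc, mul_assoc,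
    mul_zero, zero_mul] at e1 e2
  linear_combination (norm := module) e1 - e2 - (1 + i) • e3

end Ngb

/-- `y_0` and `y_1` are normal -/
lemma Rel19.normal01 {i : k} (hi : i * i = -1) (h2 : (2 : k) ≠ 0) (h : Rel19 i x) (s : Fin 4) :
    y19 x 0 * x s = c19 i 0 s • (x s * y19 x 0) ∧ y19 x 1 * x s = c19 i 1 s • (x s * y19 x 1) := by
  have A1 := ngb_A1 hi h
  have A2 := ngb_A2 hi h2 h
  have A3 := ngb_A3 hi h
  have C0 := ngb_C0 hi h2 h
  have C1 := ngb_C1 hi h2 h
  have C3 := ngb_C3 hi h2 h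
  fin_cases s <;> simp [y19, c19, sub_mul, mul_sub, mul_assoc, A1, A2, A3, C0, C1, C3]
  abel
/- END ngb -/

/- MODULE ngc -/
private lemma ngc_smul (I : TwoSidedIdeal R) (c : k) {a : R} (h : a ∈ I) : c • a ∈ I := by
  rw [Algebra.smul_def]
  exact I.mul_mem_left _ _ h

private lemma ngc_half (h2 : (2 : k) ≠ 0) (I : TwoSidedIdeal R) {a : R}
    (h : (2 : k) • a ∈ I) : a ∈ I := by
  have := ngc_smul I (2 : k)⁻¹ h
  rwa [smul_smul, inv_mul_cancel₀ h2, one_smul] at this

private lemma ngc_PQ {i : k} (h : Rel19 i x) (I : TwoSidedIdeal R) (h0 : y19 x 0 ∈ I)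
    (h1 : y19 x 1 ∈ I) : x 0 * x 2 + x 2 * x 0 ∈ I ∧ x 2 * x 3 + x 3 * x 2 ∈ I := by
  have h22 : x 2 * x 2 ∈ I := h0
  have h00 : x 0 * x 0 ∈ I := by
    have h3 : x 0 * x 0 - x 2 * x 2 ∈ I := h1
    have h4 := I.add_mem h3 h22
    rwa [sub_add_cancel] at h4
  have h33 : x 3 * x 3 ∈ I := by
    have h3 : x 3 * x 3 = (2 : k) • (x 2 * x 2) - x 0 * x 0 := by
      rw [← h.e0]; abel
    rw [h3]
    exact I.sub_mem (ngc_smul I _ h22) h00
  refine ⟨?_, ?_⟩
  · rw [h.e1]
    exact I.add_mem (ngc_smul I _ h00) (ngc_smul I _ h22)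
  · rw [h.e2]
    exact I.add_mem (ngc_smul I _ h33) (ngc_smul I _ h22)

/-- `y_2` is normal modulo `y_0, y_1` -/
lemma Rel19.normal2 {i : k} (hi : i * i = -1) (h2 : (2 : k) ≠ 0) (h : Rel19 i x)
    (I : TwoSidedIdeal R) (h0 : y19 x 0 ∈ I) (h1 : y19 x 1 ∈ I) (s : Fin 4) :
    y19 x 2 * x s - c19 i 2 s • (x s * y19 x 2) ∈ I := by
  obtain ⟨hP, hQ⟩ := ngc_PQ h I h0 h1
  have D0 := ngb_D0 hi h
  have D3 := ngb_D3 hi h
  fin_cases s
  · simp only [y19, c19, Fin.zero_eta, Matrix.cons_val, Matrix.cons_val_zero, Matrix.cons_val_one,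
      Matrix.cons_val_fin_one]
    have e : x 1 * x 1 * x 0 - (-1 : k) • (x 0 * (x 1 * x 1)) = 0 := by
      rw [D0]
      simp only [mul_assoc]
      module
    rw [e]
    exact I.zero_mem
  · simp only [y19, c19, Fin.mk_one, Matrix.cons_val, Matrix.cons_val_zero, Matrix.cons_val_one,
      Matrix.cons_val_fin_one]
    have e : x 1 * x 1 * x 1 - (1 : k) • (x 1 * (x 1 * x 1)) = 0 := by
      simp only [mul_assoc]
      module
    rw [e]
    exact I.zero_mem
  · simp only [y19, c19, Fin.reduceFinMk, Matrix.cons_val, Matrix.cons_val_zero,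
      Matrix.cons_val_one, Matrix.cons_val_fin_one]
    apply ngc_half h2 I
    have e1 := congrArg (· * x 2) h.e3
    have e2 := congrArg (x 2 * ·) h.e3
    simp only [mul_add, add_mul, mul_sub, sub_mul, mul_smul_comm, smul_mul_assoc, mul_assoc,
      mul_zero, zero_mul] at e1 e2
    have e : (2 : k) • (x 1 * x 1 * x 2 - (1 : k) • (x 2 * (x 1 * x 1))) =
        x 3 * (x 0 * x 2 + x 2 * x 0) - x 0 * (x 2 * x 3 + x 3 * x 2) -
        (x 2 * x 3 + x 3 * x 2) * x 0 + (x 0 * x 2 + x 2 * x 0) * x 3 := by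
      simp only [mul_add, add_mul, mul_assoc]
      linear_combination (norm := module) e1 - e2
    rw [e]
    exact I.add_mem (I.sub_mem (I.sub_mem (I.mul_mem_left _ _ hP) (I.mul_mem_left _ _ hQ))
      (I.mul_mem_right _ _ hQ)) (I.mul_mem_right _ _ hP)
  · simp only [y19, c19, Fin.reduceFinMk, Matrix.cons_val, Matrix.cons_val_zero,
      Matrix.cons_val_one, Matrix.cons_val_fin_one]
    have e : x 1 * x 1 * x 3 - (-1 : k) • (x 3 * (x 1 * x 1)) = 0 := by
      rw [D3]
      simp only [mul_assoc]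
      module
    rw [e]
    exact I.zero_mem

/-- `y_3` is normal modulo `y_0, y_1, y_2` -/
lemma Rel19.normal3 {i : k} (hi : i * i = -1) (h2 : (2 : k) ≠ 0) (h : Rel19 i x)
    (I : TwoSidedIdeal R) (h0 : y19 x 0 ∈ I) (h1 : y19 x 1 ∈ I) (h3 : y19 x 2 ∈ I) (s : Fin 4) :
    y19 x 3 * x s - c19 i 3 s • (x s * y19 x 3) ∈ I := by
  obtain ⟨hP, hQ⟩ := ngc_PQ h I h0 h1
  have h0' : x 2 * x 2 ∈ I := h0
  have h3' : x 1 * x 1 ∈ I := h3
  fin_cases s
  · simp only [y19, c19, Fin.zero_eta, Matrix.cons_val, Matrix.cons_val_zero, Matrix.cons_val_one,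
      Matrix.cons_val_fin_one]
    have e1 := congrArg (· * x 2) h.e4
    have e2 := congrArg (x 2 * ·) h.e4
    have e3 : (1 + i * i) • (x 1 * (x 0 * x 2)) = 0 := by rw [hi]; simp
    have e4 : (1 + i * i) • (x 2 * (x 1 * x 0)) = 0 := by rw [hi]; simp
    simp only [mul_add, add_mul, mul_sub, sub_mul, mul_smul_comm, smul_mul_assoc, mul_assoc,
      mul_zero, zero_mul] at e1 e2
    have e : (x 1 * x 2 + x 2 * x 1) * x 0 - (-i) • (x 0 * (x 1 * x 2 + x 2 * x 1)) =
        x 1 * (x 0 * x 2 + x 2 * x 0) + i • ((x 0 * x 2 + x 2 * x 0) * x 1) := by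
      simp only [mul_add, add_mul, mul_assoc]
      linear_combination (norm := module) i • e1 - i • e2 - e3 + e4
    rw [e]
    exact I.add_mem (I.mul_mem_left _ _ hP) (ngc_smul I _ (I.mul_mem_right _ _ hP))
  · simp only [y19, c19, Fin.mk_one, Matrix.cons_val, Matrix.cons_val_zero, Matrix.cons_val_one,
      Matrix.cons_val_fin_one]
    have e : (x 1 * x 2 + x 2 * x 1) * x 1 - (1 : k) • (x 1 * (x 1 * x 2 + x 2 * x 1)) =
        x 2 * (x 1 * x 1) - (x 1 * x 1) * x 2 := by
      simp only [mul_add, add_mul, mul_assoc]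
      module
    rw [e]
    exact I.sub_mem (I.mul_mem_left _ _ h3') (I.mul_mem_right _ _ h3')
  · simp only [y19, c19, Fin.reduceFinMk, Matrix.cons_val, Matrix.cons_val_zero,
      Matrix.cons_val_one, Matrix.cons_val_fin_one]
    have e : (x 1 * x 2 + x 2 * x 1) * x 2 - (1 : k) • (x 2 * (x 1 * x 2 + x 2 * x 1)) =
        x 1 * (x 2 * x 2) - (x 2 * x 2) * x 1 := by
      simp only [mul_add, add_mul, mul_assoc]
      module
    rw [e]
    exact I.sub_mem (I.mul_mem_left _ _ h0') (I.mul_mem_right _ _ h0')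
  · simp only [y19, c19, Fin.reduceFinMk, Matrix.cons_val, Matrix.cons_val_zero,
      Matrix.cons_val_one, Matrix.cons_val_fin_one]
    have e1 := congrArg (· * x 2) h.e5
    have e2 := congrArg (x 2 * ·) h.e5
    simp only [mul_add, add_mul, mul_sub, sub_mul, mul_smul_comm, smul_mul_assoc, mul_assoc,
      mul_zero, zero_mul] at e1 e2
    have e : (x 1 * x 2 + x 2 * x 1) * x 3 - i • (x 3 * (x 1 * x 2 + x 2 * x 1)) =
        x 1 * (x 2 * x 3 + x 3 * x 2) - i • ((x 2 * x 3 + x 3 * x 2) * x 1) := by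
      simp only [mul_add, add_mul, mul_assoc]
      linear_combination (norm := module) e2 - e1
    rw [e]
    exact I.sub_mem (I.mul_mem_left _ _ hQ) (ngc_smul I _ (I.mul_mem_right _ _ hQ))
/- END ngc -/

/- MODULE ngd -/
private lemma ngd_two (s t : Fin 4) : x s * x t ∈ powGrading k x 2 := by
  unfold powGrading
  rw [pow_two]
  exact Submodule.mul_mem_mul (x_mem s) (x_mem t)

theorem isGSCA19 {i : k} (hi : i * i = -1) (h2 : (2 : k) ≠ 0) (h : IsPres k R (r19 i) x) :
    IsGSCA (powGrading k x) 4 := by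
  have hr : Rel19 i x := (rels_r19_iff i x).mp h.rel
  have hi0 : i ≠ 0 := by
    rintro rfl
    simp at hi
  obtain ⟨e, ex, ey⟩ := h.exists_equiv (mu19 i) (M19 i) (y19 x) (g19 k) (y19_eq x)
    (fun a b => hr.gsca hi a b)
    (fun S _ _ X Y hXY => by
      have := rel19_of_gsca h2 X Y hXY
      exact ⟨(rels_r19_iff i X).mpr this.1, fun l => by rw [this.2 l]; exact y19_eq X l⟩)
  refine ⟨mu19 i, M19 i, e, x, y19 x, y19 x, ?_, ?_, ?_, ?_, ex, ey, ?_, ?_, rfl, ?_⟩
  · intro a b
    fin_cases a <;> fin_cases b <;> simp [mu19, hi0]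
  · intro a b
    fin_cases a <;> fin_cases b <;> simp [mu19, hi]
  · intro a
    fin_cases a <;> simp [mu19]
  · intro l a b
    have e1 : i * i = -1 := hi
    fin_cases l <;> fin_cases a <;> fin_cases b <;> simp [M19, mu19]
  · intro s
    exact mem_one_of_mem (x_mem s)
  · intro l
    rw [y19_eq (k := k)]
    exact Submodule.sum_mem _ fun a _ => Submodule.sum_mem _ fun b _ =>
      Submodule.smul_mem _ _ (ngd_two a b)
  · intro l
    have hm : ∀ j : Fin 4, j < l → y19 x j ∈ TwoSidedIdeal.span (y19 x '' {j | j < l}) := by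
      intro j hj
      exact TwoSidedIdeal.subset_span ⟨j, hj, rfl⟩
    refine h.normalMod _ _ (c19 i l) ?_ (fun s => ?_)
    · intro s
      fin_cases l <;> fin_cases s <;> simp [c19, hi0]
    · fin_cases l
      · have := (hr.normal01 hi h2 s).1
        simp only [Fin.zero_eta]
        rw [this, sub_self]
        exact TwoSidedIdeal.zero_mem _
      · have := (hr.normal01 hi h2 s).2
        simp only [Fin.mk_one]
        rw [this, sub_self]
        exact TwoSidedIdeal.zero_mem _
      · exact hr.normal2 hi h2 _ (hm 0 (by decide)) (hm 1 (by decide)) s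
      · exact hr.normal3 hi h2 _ (hm 0 (by decide)) (hm 1 (by decide)) (hm 2 (by decide)) s
/- END ngd -/

end Pool.Agent.Gsc
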