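import Pool.Agent.Gsc.Gs
import Pool.Agent.Gsc.TwoPt

/-!
# The algebra with two point modules is a graded (skew) Clifford algebra
-/

set_option linter.unusedSimpArgs false
set_option linter.unusedVariables false

universe u

namespace Pool.Agent.Gsc

variable {k : Type u} [Field k] {R : Type u} [Ring R] [Algebra k R] {x : Fin 4 → R}

/-- the symmetric matrices: `x_i x_j + x_j x_i = ∑ l, (M2 i l)_ij y_l` with `y_0 = x_0x_1 + x_1x_0`,
`y_1 = x_1x_3 + x_3x_1`, `y_2 = x_2x_3 + x_3x_2`, `y_3 = x_2^2` -/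
def M2 (i : k) : Fin 4 → Matrix (Fin 4) (Fin 4) k :=
  ![!![0, 1, 0, 0; 1, 0, 0, 0; 0, 0, 0, 0; 0, 0, 0, 0],
    !![0, 0, 1, 0; 0, 0, 0, 1; 1, 0, 0, 0; 0, 1, 0, 0],
    !![4, 0, 0, 1; 0, -4, 1, 0; 0, 1, 0, 1; 1, 0, 1, 0],
    !![-2 + 12 * i, 0, -4 * i, 2 + 2 * i; 0, -2 - 12 * i, -2 + 2 * i, 0;
      -4 * i, -2 + 2 * i, 2, 0; 2 + 2 * i, 0, 0, 2]]

/-- the coefficients of the `y_l` -/
def g2 (k : Type u) [Field k] : Fin 4 → Fin 4 → Fin 4 → k :=
  ![![![0, 1, 0, 0], ![1, 0, 0, 0], ![0, 0, 0, 0], ![0, 0, 0, 0]],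
    ![![0, 0, 0, 0], ![0, 0, 0, 1], ![0, 0, 0, 0], ![0, 1, 0, 0]],
    ![![0, 0, 0, 0], ![0, 0, 0, 0], ![0, 0, 0, 1], ![0, 0, 1, 0]],
    ![![0, 0, 0, 0], ![0, 0, 0, 0], ![0, 0, 1, 0], ![0, 0, 0, 0]]]

/-- the elements `y_l` -/
def y2 (x : Fin 4 → R) : Fin 4 → R :=
  ![x 0 * x 1 + x 1 * x 0, x 1 * x 3 + x 3 * x 1, x 2 * x 3 + x 3 * x 2, x 2 * x 2]

/-- the six relations -/
structure Rel2 (i : k) (x : Fin 4 → R) : Prop where
  e0 : x 0 * x 0 - (2 : k) • (x 0 * x 3 + x 3 * x 0) + (5 - 2 * i) • (x 3 * x 3) = 0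
  e1 : x 1 * x 1 + (2 : k) • (x 1 * x 2 + x 2 * x 1) + (5 + 2 * i) • (x 2 * x 2) = 0
  e2 : x 0 * x 2 + x 2 * x 0 - (x 1 * x 3 + x 3 * x 1) + (-1 + 2 * i) • (x 2 * x 2) +
    (1 + 2 * i) • (x 3 * x 3) = 0
  e3 : x 0 * x 3 + x 3 * x 0 - (x 2 * x 3 + x 3 * x 2) - (2 + 2 * i) • (x 3 * x 3) = 0
  e4 : x 1 * x 2 + x 2 * x 1 - (x 2 * x 3 + x 3 * x 2) + (2 - 2 * i) • (x 2 * x 2) = 0
  e5 : x 2 * x 2 - x 3 * x 3 = 0

/- MODULE tc -/
lemma rels_r2_iff (i : k) (x : Fin 4 → R) : Rels (r2 i) x ↔ Rel2 i x := by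
  constructor
  · intro h
    have h0 := h 0
    have h1 := h 1
    have h2 := h 2
    have h3 := h 3
    have h4 := h 4
    have h5 := h 5
    simp only [r2, Fin.sum_univ_four, Matrix.of_apply, Matrix.cons_val', Matrix.cons_val_zero,
      Matrix.cons_val_one, Matrix.cons_val, Matrix.empty_val', Matrix.cons_val_fin_one]
      at h0 h1 h2 h3 h4 h5
    refine ⟨?_, ?_, ?_, ?_, ?_, ?_⟩
    · rw [← h0]; module
    · rw [← h1]; module
    · rw [← h2]; module
    · rw [← h3]; module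
    · rw [← h4]; module
    · rw [← h5]; module
  · rintro ⟨e0, e1, e2, e3, e4, e5⟩ l
    fin_cases l
    · rw [← e0]; simp [r2, Fin.sum_univ_four]; module
    · rw [← e1]; simp [r2, Fin.sum_univ_four]; module
    · rw [← e2]; simp [r2, Fin.sum_univ_four]; module
    · rw [← e3]; simp [r2, Fin.sum_univ_four]; module
    · rw [← e4]; simp [r2, Fin.sum_univ_four]; module
    · rw [← e5]; simp [r2, Fin.sum_univ_four]; module

private lemma tc_norm {i : k} (h : Rel2 i x) :
    x 3 * x 3 = x 2 * x 2 ∧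
    x 0 * x 3 + x 3 * x 0 = (x 2 * x 3 + x 3 * x 2) + (2 + 2 * i) • (x 2 * x 2) ∧
    x 1 * x 2 + x 2 * x 1 = (x 2 * x 3 + x 3 * x 2) - (2 - 2 * i) • (x 2 * x 2) ∧
    x 0 * x 2 + x 2 * x 0 = (x 1 * x 3 + x 3 * x 1) - (4 * i) • (x 2 * x 2) ∧
    x 0 * x 0 = (2 : k) • (x 2 * x 3 + x 3 * x 2) + (-1 + 6 * i) • (x 2 * x 2) ∧
    x 1 * x 1 = (-2 : k) • (x 2 * x 3 + x 3 * x 2) + (-1 - 6 * i) • (x 2 * x 2) := by
  obtain ⟨e0, e1, e2, e3, e4, e5⟩ := h
  have f5 : x 3 * x 3 = x 2 * x 2 := by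
    linear_combination (norm := module) (-1 : k) • e5
  have f3 : x 0 * x 3 + x 3 * x 0 = (x 2 * x 3 + x 3 * x 2) + (2 + 2 * i) • (x 2 * x 2) := by
    linear_combination (norm := module) e3 + (2 + 2 * i) • f5
  have f4 : x 1 * x 2 + x 2 * x 1 = (x 2 * x 3 + x 3 * x 2) - (2 - 2 * i) • (x 2 * x 2) := by
    linear_combination (norm := module) e4
  refine ⟨f5, f3, f4, ?_, ?_, ?_⟩
  · linear_combination (norm := module) e2 - (1 + 2 * i) • f5
  · linear_combination (norm := module) e0 + (2 : k) • f3 - (5 - 2 * i) • f5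
  · linear_combination (norm := module) e1 - (2 : k) • f4

lemma Rel2.gsca {i : k} (h : Rel2 i x) (a b : Fin 4) :
    x a * x b + x b * x a = ∑ l, M2 i l a b • y2 x l := by
  obtain ⟨f5, f3, f4, f2, f0, f1⟩ := tc_norm h
  fin_cases a <;> fin_cases b <;> simp [M2, y2, Fin.sum_univ_four]
  · linear_combination (norm := module) (2 : k) • f0
  · linear_combination (norm := module) f2
  · linear_combination (norm := module) f3
  · module
  · linear_combination (norm := module) (2 : k) • f1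
  · linear_combination (norm := module) f4
  · linear_combination (norm := module) f2
  · linear_combination (norm := module) f4
  · module
  · linear_combination (norm := module) f3
  · module
  · module
  · linear_combination (norm := module) (2 : k) • f5

lemma y2_eq (x : Fin 4 → R) (l : Fin 4) : y2 x l = ∑ a, ∑ b, g2 k l a b • (x a * x b) := by
  fin_cases l <;> simp [y2, g2, Fin.sum_univ_four]

/-- the relations of the graded Clifford algebra imply the six relations -/
lemma rel2_of_gsca {i : k} (h2 : (2 : k) ≠ 0) (X Y : Fin 4 → R)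
    (h : ∀ a b, X a * X b + X b * X a = ∑ l, M2 i l a b • Y l) :
    Rel2 i X ∧ ∀ l, Y l = y2 X l := by
  have h00 := h 0 0
  have h01 := h 0 1
  have h02 := h 0 2
  have h03 := h 0 3
  have h11 := h 1 1
  have h12 := h 1 2
  have h13 := h 1 3
  have h22 := h 2 2
  have h23 := h 2 3
  have h33 := h 3 3
  simp [M2, Fin.sum_univ_four] at h00 h01 h02 h03 h11 h12 h13 h22 h23 h33
  have cancel : ∀ v w : R, (2 : k) • v = (2 : k) • w → v = w := by
    intro v w hvw
    have := congrArg (fun z => (2 : k)⁻¹ • z) hvw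
    simpa [smul_smul, inv_mul_cancel₀ h2] using this
  have f22 : X 2 * X 2 = Y 3 := by
    apply cancel
    linear_combination (norm := module) h22
  have f33 : X 3 * X 3 = Y 3 := by
    apply cancel
    linear_combination (norm := module) h33
  have f00 : X 0 * X 0 = (2 : k) • Y 2 + (-1 + 6 * i) • Y 3 := by
    apply cancel
    linear_combination (norm := module) h00
  have f11 : X 1 * X 1 = (-2 : k) • Y 2 + (-1 - 6 * i) • Y 3 := by
    apply cancel
    linear_combination (norm := module) h11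
  refine ⟨⟨?_, ?_, ?_, ?_, ?_, ?_⟩, ?_⟩
  · linear_combination (norm := module) f00 - (2 : k) • h03 + (5 - 2 * i) • f33
  · linear_combination (norm := module) f11 + (2 : k) • h12 + (5 + 2 * i) • f22
  · linear_combination (norm := module) h02 - h13 + (-1 + 2 * i) • f22 + (1 + 2 * i) • f33
  · linear_combination (norm := module) h03 - h23 - (2 + 2 * i) • f33
  · linear_combination (norm := module) h12 - h23 + (2 - 2 * i) • f22
  · linear_combination (norm := module) f22 - f33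
  · intro l
    fin_cases l
    · simp [y2, h01]
    · simp [y2, h13]
    · simp [y2, h23]
    · simp [y2, f22]
/- END tc -/

/- MODULE td -/
private lemma td_sq {a c s : R} (hs : a * c + c * a = s) (h : Commute (a * a) c) :
    Commute s a := by
  rw [← hs]
  have h' : a * a * c = c * (a * a) := h
  have : (a * c + c * a) * a - a * (a * c + c * a) = c * (a * a) - a * a * c := by noncomm_ring
  exact sub_eq_zero.mp (by rw [this, h', sub_self])

private lemma td_sq' {a c s : R} (hs : a * c + c * a = s) (h : Commute s a) :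
    Commute (a * a) c := by
  rw [← hs] at h
  have h' : (a * c + c * a) * a = a * (a * c + c * a) := h
  have : a * a * c - c * (a * a) = a * (a * c + c * a) - (a * c + c * a) * a := by noncomm_ring
  exact sub_eq_zero.mp (by rw [this, h', sub_self])

private lemma td_jac {a b c s t : R} (hs : b * c + c * b = s) (ht : a * c + c * a = t)
    (h1 : Commute s a) (h2 : Commute t b) : Commute (a * b + b * a) c := by
  rw [← hs] at h1
  rw [← ht] at h2
  have h1' : (b * c + c * b) * a = a * (b * c + c * b) := h1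
  have h2' : (a * c + c * a) * b = b * (a * c + c * a) := h2
  have : (a * b + b * a) * c - c * (a * b + b * a) =
      (a * (b * c + c * b) - (b * c + c * b) * a) +
      (b * (a * c + c * a) - (a * c + c * a) * b) := by noncomm_ring
  exact sub_eq_zero.mp (by rw [this, h1', h2', sub_self, sub_self, add_zero])

private lemma td_two {c : k} (hc : c ≠ 0) {p z : R} (h : Commute (c • p) z) : Commute p z := by
  have := Commute.smul_left h c⁻¹
  rwa [smul_smul, inv_mul_cancel₀ hc, one_smul] at this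

private lemma td_all {i : k} (h2 : (2 : k) ≠ 0) (h : Rel2 i x) (s : Fin 4) :
    Commute (x 0 * x 1 + x 1 * x 0) (x s) ∧ Commute (x 1 * x 3 + x 3 * x 1) (x s) ∧
    Commute (x 2 * x 3 + x 3 * x 2) (x s) ∧ Commute (x 2 * x 2) (x s) := by
  obtain ⟨f5, f3, f4, f2, f0, f1⟩ := tc_norm h
  have W2 : Commute (x 2 * x 2) (x 2) := (Commute.refl _).mul_left (Commute.refl _)
  have W3 : Commute (x 2 * x 2) (x 3) := by
    rw [← f5]; exact (Commute.refl _).mul_left (Commute.refl _)
  have P2 : Commute (x 2 * x 3 + x 3 * x 2) (x 2) := td_sq rfl W3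
  have P3 : Commute (x 2 * x 3 + x 3 * x 2) (x 3) := td_sq (add_comm _ _) (by rw [f5]; exact W2)
  have W1 : Commute (x 2 * x 2) (x 1) :=
    td_sq' ((add_comm _ _).trans f4) (P2.sub_left (W2.smul_left _))
  have W0 : Commute (x 2 * x 2) (x 0) := by
    rw [← f5]
    exact td_sq' ((add_comm _ _).trans f3) (P3.add_left (W3.smul_left _))
  have P0 : Commute (x 2 * x 3 + x 3 * x 2) (x 0) := by
    apply td_two h2
    have e : (2 : k) • (x 2 * x 3 + x 3 * x 2) = x 0 * x 0 - (-1 + 6 * i) • (x 2 * x 2) := by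
      rw [f0]; abel
    rw [e]
    exact ((Commute.refl _).mul_left (Commute.refl _)).sub_left (W0.smul_left _)
  have P1 : Commute (x 2 * x 3 + x 3 * x 2) (x 1) := by
    apply td_two (neg_ne_zero.mpr h2)
    have e : (-2 : k) • (x 2 * x 3 + x 3 * x 2) = x 1 * x 1 - (-1 - 6 * i) • (x 2 * x 2) := by
      rw [f1]; abel
    rw [e]
    exact ((Commute.refl _).mul_left (Commute.refl _)).sub_left (W1.smul_left _)
  have Q0 : ∀ z, Commute (x 2 * x 3 + x 3 * x 2) z → Commute (x 2 * x 2) z →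
      Commute (x 0 * x 0) z := by
    intro z h1 h2
    rw [f0]
    exact (h1.smul_left _).add_left (h2.smul_left _)
  have Q1 : ∀ z, Commute (x 2 * x 3 + x 3 * x 2) z → Commute (x 2 * x 2) z →
      Commute (x 1 * x 1) z := by
    intro z h1 h2
    rw [f1]
    exact (h1.smul_left _).add_left (h2.smul_left _)
  have e1 : x 1 * x 3 + x 3 * x 1 = (x 0 * x 2 + x 2 * x 0) + (4 * i) • (x 2 * x 2) := by
    rw [f2]; abel
  have T2 : Commute (x 1 * x 3 + x 3 * x 1) (x 2) := by
    rw [e1]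
    exact (td_sq (add_comm _ _) W0).add_left (W2.smul_left _)
  have T3 : Commute (x 1 * x 3 + x 3 * x 1) (x 3) :=
    td_sq (add_comm _ _) (by rw [f5]; exact W1)
  have T0 : Commute (x 1 * x 3 + x 3 * x 1) (x 0) := by
    rw [e1]
    exact (td_sq rfl (Q0 _ P2 W2)).add_left (W0.smul_left _)
  have T1 : Commute (x 1 * x 3 + x 3 * x 1) (x 1) := td_sq rfl (Q1 _ P3 W3)
  have Z0 : Commute (x 0 * x 1 + x 1 * x 0) (x 0) := td_sq rfl (Q0 _ P1 W1)
  have Z1 : Commute (x 0 * x 1 + x 1 * x 0) (x 1) := td_sq (add_comm _ _) (Q1 _ P0 W0)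
  have Z2 : Commute (x 0 * x 1 + x 1 * x 0) (x 2) :=
    td_jac f4 f2 (P0.sub_left (W0.smul_left _)) (T1.sub_left (W1.smul_left _))
  have Z3 : Commute (x 0 * x 1 + x 1 * x 0) (x 3) :=
    td_jac rfl f3 T0 (P1.add_left (W1.smul_left _))
  fin_cases s
  · exact ⟨Z0, T0, P0, W0⟩
  · exact ⟨Z1, T1, P1, W1⟩
  · exact ⟨Z2, T2, P2, W2⟩
  · exact ⟨Z3, T3, P3, W3⟩

/-- the elements `y_l` are central -/
lemma Rel2.central {i : k} (h2 : (2 : k) ≠ 0) (h : Rel2 i x) (l s : Fin 4) :
    y2 x l * x s = x s * y2 x l := by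
  obtain ⟨h0, h1, h3, h4⟩ := td_all h2 h s
  fin_cases l
  · exact h0
  · exact h1
  · exact h3
  · exact h4
/- END td -/

/- MODULE te -/
private lemma te_two (s t : Fin 4) : x s * x t ∈ powGrading k x 2 := by
  unfold powGrading
  rw [pow_two]
  exact Submodule.mul_mem_mul (x_mem s) (x_mem t)

theorem isGSCA2 {i : k} (h2 : (2 : k) ≠ 0) (h : IsPres k R (r2 i) x) :
    IsGSCA (powGrading k x) 4 := by
  have hr : Rel2 i x := (rels_r2_iff i x).mp h.rel
  obtain ⟨e, ex, ey⟩ := h.exists_equiv (fun _ _ => 1) (M2 i) (y2 x) (g2 k) (y2_eq x)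
    (fun a b => by simpa using hr.gsca a b)
    (fun S _ _ X Y hXY => by
      have := rel2_of_gsca h2 X Y (fun a b => by simpa using hXY a b)
      exact ⟨(rels_r2_iff i X).mpr this.1, fun l => by rw [this.2 l]; exact y2_eq X l⟩)
  refine ⟨fun _ _ => 1, M2 i, e, x, y2 x, y2 x, by simp, by simp, by simp, ?_, ex, ey, ?_, ?_,
    rfl, ?_⟩
  · intro l a b
    fin_cases l <;> fin_cases a <;> fin_cases b <;> simp [M2]
  · intro s
    exact mem_one_of_mem (x_mem s)
  · intro l
    rw [y2_eq (k := k)]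
    exact Submodule.sum_mem _ fun a _ => Submodule.sum_mem _ fun b _ =>
      Submodule.smul_mem _ _ (te_two a b)
  · intro l
    refine h.normalMod _ _ (fun _ => 1) (fun _ => one_ne_zero) (fun s => ?_)
    rw [hr.central h2 l s, one_smul, sub_self]
    exact TwoSidedIdeal.zero_mem _
/- END te -/

end Pool.Agent.Gsc
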